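import Mathlib

set_option autoImplicit false

open MeasureTheory Metric Set
open scoped ComplexConjugate ENNReal

namespace Pool.Agent.Work.MP_a3494b_an

/-- Helly-type theorem: a bounded moment problem is solved by a continuous functional. -/
lemma exists_functional {E : Type*} [NormedAddCommGroup E] [NormedSpace ℂ E] {ι : Type*}
    (v : ι → E) (c : ι → ℂ) (C : ℝ) (hC : 0 ≤ C)
    (h : ∀ a : ι →₀ ℂ, ‖Finsupp.linearCombination ℂ c a‖ ≤
      C * ‖Finsupp.linearCombination ℂ v a‖) :
    ∃ L : E →L[ℂ] ℂ, (∀ i, L (v i) = c i) ∧ ‖L‖ ≤ C := by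
  set V := Finsupp.linearCombination ℂ v with hV
  set W := Finsupp.linearCombination ℂ c with hW
  obtain ⟨g, hg⟩ := LinearMap.exists_rightInverse_of_surjective V.rangeRestrict
    (LinearMap.range_eq_top.mpr V.surjective_rangeRestrict)
  have hg' : ∀ y : LinearMap.range V, V (g y) = y := by
    intro y
    have := LinearMap.congr_fun hg y
    simp only [LinearMap.comp_apply, LinearMap.id_apply] at this
    have h2 := congrArg (Subtype.val) this
    simpa using h2
  set f : LinearMap.range V →ₗ[ℂ] ℂ := W ∘ₗ g with hf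
  have hfb : ∀ y, ‖f y‖ ≤ C * ‖y‖ := by
    intro y
    rw [hf, LinearMap.comp_apply]
    refine (h (g y)).trans ?_
    rw [hg' y]
    rfl
  obtain ⟨L, hL1, hL2⟩ := exists_extension_norm_eq (LinearMap.range V) (f.mkContinuous C hfb)
  refine ⟨L, ?_, ?_⟩
  · intro i
    have hvi : V (Finsupp.single i 1) = v i := by simp [hV]
    have hwi : W (Finsupp.single i 1) = c i := by simp [hW]
    have hmem : v i ∈ LinearMap.range V := ⟨_, hvi⟩
    have h1 := hL1 ⟨v i, hmem⟩
    rw [LinearMap.mkContinuous_apply] at h1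
    have h2 : f ⟨v i, hmem⟩ = c i := by
      rw [hf, LinearMap.comp_apply, ← hwi, ← sub_eq_zero, ← map_sub]
      have h3 := h (g ⟨v i, hmem⟩ - Finsupp.single i 1)
      have h4 : V (g ⟨v i, hmem⟩ - Finsupp.single i 1) = 0 := by
        rw [map_sub, hg', hvi, sub_self]
      rw [h4, norm_zero, mul_zero] at h3
      exact norm_le_zero_iff.mp h3
    rw [← h2]
    exact h1
  · rw [hL2]
    exact f.mkContinuous_norm_le hC hfb

variable {α : Type*} [MeasurableSpace α] {μ : Measure α} [IsProbabilityMeasure μ]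

/-- The inclusion of `L²` into `L¹` for a probability measure. -/
noncomputable def inc : Lp ℂ 2 μ →ₗ[ℂ] Lp ℂ 1 μ where
  toFun f := ((Lp.memLp f).mono_exponent (by norm_num : (1 : ℝ≥0∞) ≤ 2)).toLp f
  map_add' f g := by
    apply Lp.ext
    filter_upwards [MemLp.coeFn_toLp ((Lp.memLp (f + g)).mono_exponent
        (by norm_num : (1 : ℝ≥0∞) ≤ 2)),
      MemLp.coeFn_toLp ((Lp.memLp f).mono_exponent (by norm_num : (1 : ℝ≥0∞) ≤ 2)),
      MemLp.coeFn_toLp ((Lp.memLp g).mono_exponent (by norm_num : (1 : ℝ≥0∞) ≤ 2)),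
      Lp.coeFn_add f g,
      Lp.coeFn_add (((Lp.memLp f).mono_exponent (by norm_num : (1 : ℝ≥0∞) ≤ 2)).toLp f)
        (((Lp.memLp g).mono_exponent (by norm_num : (1 : ℝ≥0∞) ≤ 2)).toLp g)]
      with x h1 h2 h3 h4 h5
    rw [h1, h5, h4, Pi.add_apply, Pi.add_apply, h2, h3]
  map_smul' c f := by
    apply Lp.ext
    filter_upwards [MemLp.coeFn_toLp ((Lp.memLp (c • f)).mono_exponent
        (by norm_num : (1 : ℝ≥0∞) ≤ 2)),
      MemLp.coeFn_toLp ((Lp.memLp f).mono_exponent (by norm_num : (1 : ℝ≥0∞) ≤ 2)),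
      Lp.coeFn_smul c f,
      Lp.coeFn_smul c (((Lp.memLp f).mono_exponent (by norm_num : (1 : ℝ≥0∞) ≤ 2)).toLp f)]
      with x h1 h2 h3 h4
    rw [h1, RingHom.id_apply, h4, h3, Pi.smul_apply, Pi.smul_apply, h2]

lemma inc_coe (f : Lp ℂ 2 μ) : (inc f : α → ℂ) =ᵐ[μ] f :=
  MemLp.coeFn_toLp ((Lp.memLp f).mono_exponent (by norm_num : (1 : ℝ≥0∞) ≤ 2))

lemma norm_inc_le (f : Lp ℂ 2 μ) : ‖inc f‖ ≤ ‖f‖ := by
  rw [Lp.norm_def, Lp.norm_def]
  apply ENNReal.toReal_mono (Lp.eLpNorm_ne_top f)
  rw [eLpNorm_congr_ae (inc_coe f)]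
  exact eLpNorm_le_eLpNorm_of_exponent_le (by norm_num) (Lp.aestronglyMeasurable f)

/-- Riesz representation of a functional on `L¹` by a bounded function. -/
lemma exists_bounded_rep (L : Lp ℂ 1 μ →L[ℂ] ℂ) (C : ℝ) (hC : ‖L‖ ≤ C) :
    ∃ g : α → ℂ, MemLp g ⊤ μ ∧ ∀ (f : α → ℂ) (hf : MemLp f 2 μ),
      L (inc (hf.toLp f)) = ∫ x, conj (g x) * f x ∂μ := by
  have hC0 : 0 ≤ C := (norm_nonneg L).trans hC
  set T : Lp ℂ 2 μ →L[ℂ] ℂ := (L.toLinearMap ∘ₗ inc).mkContinuous C (by
    intro f
    rw [LinearMap.comp_apply]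
    calc ‖L (inc f)‖ ≤ ‖L‖ * ‖inc f‖ := L.le_opNorm _
      _ ≤ C * ‖f‖ := mul_le_mul hC (norm_inc_le f) (norm_nonneg _) hC0) with hT
  set g : Lp ℂ 2 μ := (InnerProductSpace.toDual ℂ (Lp ℂ 2 μ)).symm T with hg
  have hgT : ∀ f : Lp ℂ 2 μ, inner ℂ g f = L (inc f) := by
    intro f
    rw [hg, InnerProductSpace.toDual_symm_apply, hT]
    rfl
  have hrep : ∀ (f : α → ℂ) (hf : MemLp f 2 μ),
      L (inc (hf.toLp f)) = ∫ x, conj ((g : α → ℂ) x) * f x ∂μ := by
    intro f hf
    rw [← hgT, L2.inner_def]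
    apply integral_congr_ae
    filter_upwards [hf.coeFn_toLp] with x hx
    rw [hx, RCLike.inner_apply, mul_comm]
  refine ⟨g, ?_, hrep⟩
  have hgm : StronglyMeasurable (g : α → ℂ) := Lp.stronglyMeasurable g
  refine memLp_top_of_bound hgm.aestronglyMeasurable C ?_
  -- the exceptional set
  set A : Set α := {x | C < ‖(g : α → ℂ) x‖} with hA
  have hAm : MeasurableSet A := measurableSet_lt measurable_const hgm.measurable.norm
  set f : α → ℂ := A.indicator (fun x => (g : α → ℂ) x / ‖(g : α → ℂ) x‖) with hf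
  have hfm : Measurable f := by
    rw [hf]
    apply Measurable.indicator _ hAm
    exact hgm.measurable.div (Complex.measurable_ofReal.comp hgm.measurable.norm)
  have hfb : ∀ x, ‖f x‖ ≤ A.indicator (fun _ => (1 : ℝ)) x := by
    intro x
    rw [hf]
    by_cases hx : x ∈ A
    · rw [Set.indicator_of_mem hx, Set.indicator_of_mem hx, norm_div, Complex.norm_real,
        norm_norm]
      exact div_self_le_one _
    · rw [Set.indicator_of_notMem hx, Set.indicator_of_notMem hx, norm_zero]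
  have hfb1 : ∀ x, ‖f x‖ ≤ 1 := by
    intro x
    refine (hfb x).trans ?_
    exact Set.indicator_le_self' (fun _ _ => zero_le_one) x
  have hf2 : MemLp f 2 μ :=
    (memLp_top_of_bound hfm.aestronglyMeasurable 1
      (Filter.Eventually.of_forall hfb1)).mono_exponent le_top
  have h1 := hrep f hf2
  have h2 : ∫ x, conj ((g : α → ℂ) x) * f x ∂μ =
      ((∫ x, A.indicator (fun x => ‖(g : α → ℂ) x‖) x ∂μ : ℝ) : ℂ) := by
    rw [← integral_complex_ofReal]
    apply integral_congr_ae
    apply Filter.Eventually.of_forall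
    intro x
    simp only [hf]
    by_cases hx : x ∈ A
    · rw [Set.indicator_of_mem hx, Set.indicator_of_mem hx]
      have hpos : 0 < ‖(g : α → ℂ) x‖ := lt_of_le_of_lt hC0 hx
      have hne : ((‖(g : α → ℂ) x‖ : ℝ) : ℂ) ≠ 0 := by exact_mod_cast hpos.ne'
      rw [mul_div_assoc', mul_comm (conj _), Complex.mul_conj, Complex.normSq_eq_norm_sq]
      push_cast
      field_simp
    · rw [Set.indicator_of_notMem hx, Set.indicator_of_notMem hx]; simp
  have h3 : ‖L (inc (hf2.toLp f))‖ ≤ C * (μ A).toReal := by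
    calc ‖L (inc (hf2.toLp f))‖ ≤ ‖L‖ * ‖inc (hf2.toLp f)‖ := L.le_opNorm _
      _ ≤ C * (μ A).toReal := by
          apply mul_le_mul hC _ (norm_nonneg _) hC0
          rw [Lp.norm_def]
          apply ENNReal.toReal_mono (measure_ne_top _ _)
          have e1 : (inc (hf2.toLp f) : α → ℂ) =ᵐ[μ] f := (inc_coe _).trans hf2.coeFn_toLp
          rw [eLpNorm_congr_ae e1, eLpNorm_one_eq_lintegral_enorm]
          calc ∫⁻ x, ‖f x‖ₑ ∂μ ≤ ∫⁻ x, A.indicator (fun _ => (1 : ℝ≥0∞)) x ∂μ := by
                apply lintegral_mono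
                intro x
                show ‖f x‖ₑ ≤ _
                rw [← ofReal_norm]
                by_cases hx : x ∈ A
                · have := hfb x
                  rw [Set.indicator_of_mem hx] at this ⊢
                  exact ENNReal.ofReal_le_one.mpr this
                · have := hfb x
                  rw [Set.indicator_of_notMem hx] at this ⊢
                  rw [ENNReal.ofReal_eq_zero.mpr this]
            _ = μ A := by simp [hAm]
  rw [h1, h2, Complex.norm_real] at h3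
  have hgi : Integrable (fun x => ‖(g : α → ℂ) x‖) μ :=
    ((Lp.memLp g).integrable (by norm_num)).norm
  have h4 : ∫ x, A.indicator (fun x => ‖(g : α → ℂ) x‖ - C) x ∂μ ≤ 0 := by
    have e1 : ∀ x, A.indicator (fun x => ‖(g : α → ℂ) x‖ - C) x =
        A.indicator (fun x => ‖(g : α → ℂ) x‖) x - A.indicator (fun _ => C) x := by
      intro x
      by_cases hx : x ∈ A
      · simp [hx]
      · simp [hx]
    simp_rw [e1]
    rw [integral_sub (hgi.indicator hAm) ((integrable_const C).indicator hAm)]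
    have e2 : ∫ x, A.indicator (fun _ => C) x ∂μ = C * (μ A).toReal := by
      rw [integral_indicator hAm, integral_const]
      simp [mul_comm, Measure.real]
    rw [e2]
    have := (le_abs_self _).trans h3
    linarith
  have h5 : ∀ x, 0 ≤ A.indicator (fun x => ‖(g : α → ℂ) x‖ - C) x := by
    intro x
    apply Set.indicator_nonneg
    intro y hy
    have : C < ‖(g : α → ℂ) y‖ := hy
    linarith
  have h6 : Integrable (A.indicator (fun x => ‖(g : α → ℂ) x‖ - C)) μ :=
    (hgi.sub (integrable_const C)).indicator hAm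
  have h7 := (integral_eq_zero_iff_of_nonneg h5 h6).mp (le_antisymm h4 (integral_nonneg h5))
  filter_upwards [h7] with x hx
  by_contra hcon
  push Not at hcon
  have hxA : x ∈ A := hcon
  rw [Set.indicator_of_mem hxA] at hx
  simp only [Pi.zero_apply] at hx
  linarith

end Pool.Agent.Work.MP_a3494b_an
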