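import Mathlib

set_option autoImplicit false

open Complex MeasureTheory Metric Set
open scoped ComplexConjugate

namespace Pool.Agent.Work.MP_a3494b_an

/-- A zero-free square-root factor attached to the root `α`. -/
lemma exists_sqrt_factor (α : ℂ) : ∃ s : ℂ → ℂ, DiffContOnCl ℂ s (ball 0 1) ∧
    (∀ w, ‖w‖ = 1 → ‖s w‖ ^ 2 = ‖w - α‖) ∧ (∀ w, ‖w‖ < 1 → ‖w - α‖ ≤ ‖s w‖ ^ 2) := by
  have key : ∀ β : ℂ, ‖β‖ ≤ 1 →
      DiffContOnCl ℂ (fun w : ℂ => (1 - β * w) ^ (((1 / 2 : ℝ)) : ℂ)) (ball 0 1) ∧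
      ∀ w : ℂ, ‖(1 - β * w) ^ (((1 / 2 : ℝ)) : ℂ)‖ ^ 2 = ‖1 - β * w‖ := by
    intro β hβ
    refine ⟨⟨?_, ?_⟩, ?_⟩
    · intro w hw
      rw [mem_ball_zero_iff] at hw
      apply DifferentiableAt.differentiableWithinAt
      apply DifferentiableAt.cpow_const (by fun_prop)
      left
      have h1 : ‖β * w‖ < 1 := by
        rw [norm_mul]
        calc ‖β‖ * ‖w‖ ≤ 1 * ‖w‖ := by gcongr
          _ < 1 := by linarith
      have h2 := (abs_le.mp (Complex.abs_re_le_norm (β * w))).2
      simp only [sub_re, one_re]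
      linarith
    · intro w hw
      rw [closure_ball _ one_ne_zero, mem_closedBall_zero_iff] at hw
      apply ContinuousAt.continuousWithinAt
      have h1 : ‖β * w‖ ≤ 1 := by
        rw [norm_mul]
        calc ‖β‖ * ‖w‖ ≤ 1 * 1 := by gcongr
          _ = 1 := by norm_num
      have h2 := (abs_le.mp (Complex.abs_re_le_norm (β * w))).2
      have h3 : ContinuousAt (fun x : ℂ => x ^ (((1 / 2 : ℝ)) : ℂ)) (1 - β * w) := by
        apply Complex.continuousAt_cpow_const_of_re_pos
        · left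
          simp only [sub_re, one_re]
          linarith
        · simp
      exact ContinuousAt.comp (f := fun w : ℂ => 1 - β * w) h3 (by fun_prop)
    · intro w
      rw [Complex.norm_cpow_real, ← Real.sqrt_eq_rpow, Real.sq_sqrt (norm_nonneg _)]
  by_cases hα : ‖α‖ ≤ 1
  · obtain ⟨h1, h2⟩ := key (conj α) (by rwa [RCLike.norm_conj])
    refine ⟨_, h1, ?_, ?_⟩
    · intro w hw
      rw [h2]
      have h3 : w * conj w = 1 := by
        rw [Complex.mul_conj, Complex.normSq_eq_norm_sq, hw]; simp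
      have h4 : 1 - conj α * w = w * conj (w - α) := by
        rw [map_sub, mul_sub, h3]; ring
      rw [h4, norm_mul, hw, one_mul, RCLike.norm_conj]
    · intro w hw
      rw [h2]
      have h5 : ‖w - α‖ ^ 2 ≤ ‖1 - conj α * w‖ ^ 2 := by
        rw [← Complex.normSq_eq_norm_sq, ← Complex.normSq_eq_norm_sq]
        rw [Complex.normSq_apply, Complex.normSq_apply]
        simp only [sub_re, sub_im, mul_re, mul_im, conj_re, conj_im, one_re, one_im]
        have h6 : w.re ^ 2 + w.im ^ 2 ≤ 1 := by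
          have := Complex.sq_norm w
          rw [Complex.normSq_apply] at this
          nlinarith [norm_nonneg w]
        have h7 : α.re ^ 2 + α.im ^ 2 ≤ 1 := by
          have := Complex.sq_norm α
          rw [Complex.normSq_apply] at this
          nlinarith [norm_nonneg α]
        nlinarith [mul_nonneg (sub_nonneg.mpr h6) (sub_nonneg.mpr h7)]
      exact le_of_sq_le_sq h5 (norm_nonneg _)
  · push Not at hα
    have hα0 : α ≠ 0 := by
      intro h; rw [h] at hα; simp at hα; linarith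
    obtain ⟨h1, h2⟩ := key (α⁻¹) (by rw [norm_inv]; exact inv_le_one_of_one_le₀ hα.le)
    have hc := h1.const_smul (((Real.sqrt ‖α‖ : ℝ) : ℂ))
    refine ⟨fun w => ((Real.sqrt ‖α‖ : ℝ) : ℂ) • (1 - α⁻¹ * w) ^ (((1 / 2 : ℝ)) : ℂ),
      hc, ?_, ?_⟩
    · intro w hw
      rw [norm_smul, mul_pow, h2]
      have h3 : w - α = -(α * (1 - α⁻¹ * w)) := by
        field_simp; ring
      rw [h3, norm_neg, norm_mul, Complex.norm_real, Real.norm_eq_abs,
        abs_of_nonneg (Real.sqrt_nonneg _), Real.sq_sqrt (norm_nonneg _)]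
    · intro w hw
      rw [norm_smul, mul_pow, h2]
      have h3 : w - α = -(α * (1 - α⁻¹ * w)) := by
        field_simp; ring
      rw [h3, norm_neg, norm_mul, Complex.norm_real, Real.norm_eq_abs,
        abs_of_nonneg (Real.sqrt_nonneg _), Real.sq_sqrt (norm_nonneg _)]

/-- A zero-free square root majorising a polynomial. -/
lemma exists_sqrt_poly (P : Polynomial ℂ) : ∃ K : ℂ → ℂ, DiffContOnCl ℂ K (ball 0 1) ∧
    (∀ w, ‖w‖ = 1 → ‖K w‖ ^ 2 = ‖P.eval w‖) ∧ (∀ w, ‖w‖ < 1 → ‖P.eval w‖ ≤ ‖K w‖ ^ 2) := by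
  have main : ∀ (m : Multiset ℂ), ∃ K : ℂ → ℂ, DiffContOnCl ℂ K (ball 0 1) ∧
      (∀ w, ‖w‖ = 1 → ‖K w‖ ^ 2 =
        ‖((m.map (fun x => Polynomial.X - Polynomial.C x)).prod).eval w‖) ∧
      (∀ w, ‖w‖ < 1 →
        ‖((m.map (fun x => Polynomial.X - Polynomial.C x)).prod).eval w‖ ≤ ‖K w‖ ^ 2) := by
    intro m
    induction m using Multiset.induction_on with
    | empty =>
      refine ⟨fun _ => 1, diffContOnCl_const, ?_, ?_⟩ <;> intro w _ <;> simp
    | cons α m ih =>
      obtain ⟨K, h1, h2, h3⟩ := ih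
      obtain ⟨s, g1, g2, g3⟩ := exists_sqrt_factor α
      refine ⟨fun w => s w • K w, g1.smul h1, ?_, ?_⟩
      · intro w hw
        simp only [Multiset.map_cons, Multiset.prod_cons, Polynomial.eval_mul, norm_mul,
          smul_eq_mul, mul_pow, Polynomial.eval_sub, Polynomial.eval_X, Polynomial.eval_C]
        rw [g2 w hw, h2 w hw]
      · intro w hw
        simp only [Multiset.map_cons, Multiset.prod_cons, Polynomial.eval_mul, norm_mul,
          smul_eq_mul, mul_pow, Polynomial.eval_sub, Polynomial.eval_X, Polynomial.eval_C]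
        exact mul_le_mul (g3 w hw) (h3 w hw) (norm_nonneg _) (by positivity)
  obtain ⟨K, h1, h2, h3⟩ := main P.roots
  have hP := (IsAlgClosed.splits P).eq_prod_roots
  have hc := h1.const_smul (((Real.sqrt ‖P.leadingCoeff‖ : ℝ) : ℂ))
  refine ⟨fun w => ((Real.sqrt ‖P.leadingCoeff‖ : ℝ) : ℂ) • K w, hc, ?_, ?_⟩
  · intro w hw
    rw [norm_smul, mul_pow, h2 w hw, Complex.norm_real, Real.norm_eq_abs,
        abs_of_nonneg (Real.sqrt_nonneg _), Real.sq_sqrt (norm_nonneg _)]
    conv_rhs => rw [hP, Polynomial.eval_mul, Polynomial.eval_C, norm_mul]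
  · intro w hw
    rw [norm_smul, mul_pow, Complex.norm_real, Real.norm_eq_abs,
        abs_of_nonneg (Real.sqrt_nonneg _), Real.sq_sqrt (norm_nonneg _)]
    conv_lhs => rw [hP, Polynomial.eval_mul, Polynomial.eval_C, norm_mul]
    exact mul_le_mul_of_nonneg_left (h3 w hw) (norm_nonneg _)

end Pool.Agent.Work.MP_a3494b_an
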