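import Mathlib
import Pool.Agent.Work.MP_a3494b_an.OneVar

set_option autoImplicit false

open Complex MeasureTheory Metric Set
open scoped ComplexConjugate ENNReal

namespace Pool.Agent.Work.MP_a3494b_an

/-- Haar probability measure on the unit additive circle. -/
noncomputable abbrev hc : Measure UnitAddCircle := AddCircle.haarAddCircle (T := 1)

/-- The coordinate character. -/
noncomputable abbrev zc (t : UnitAddCircle) : ℂ := fourier 1 t

lemma norm_zc (t : UnitAddCircle) : ‖zc t‖ = 1 := by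
  unfold zc
  rw [fourier_one]
  exact Circle.norm_coe _

lemma continuous_zc : Continuous zc := (fourier (T := 1) 1).continuous

lemma volume_eq_hc : (volume : Measure UnitAddCircle) = hc := by
  have := @AddCircle.volume_eq_smul_haarAddCircle 1 _
  rw [ENNReal.ofReal_one, one_smul] at this
  exact this

/-- Cauchy formula over the additive circle. -/
lemma cauchy_addCircle {K : ℂ → ℂ} (hK : DiffContOnCl ℂ K (ball 0 1)) {r : ℂ} (hr : ‖r‖ < 1) :
    K r = ∫ t : UnitAddCircle, (zc t * (zc t - r)⁻¹ * K (zc t)) ∂hc := by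
  have h1 := hK.circleIntegral_sub_inv_smul (w := r) (by simpa using hr)
  have h2 : (∮ z in C((0 : ℂ), 1), (z - r)⁻¹ • K z) =
      (2 * Real.pi * I) * ∫ t : UnitAddCircle, (zc t * (zc t - r)⁻¹ * K (zc t)) ∂hc := by
    rw [← volume_eq_hc]
    rw [← AddCircle.intervalIntegral_preimage 1 0
      (fun t : UnitAddCircle => (zc t * (zc t - r)⁻¹ * K (zc t)))]
    unfold circleIntegral
    have h3 := intervalIntegral.smul_integral_comp_mul_left (a := 0) (b := 0 + 1)
      (fun θ : ℝ => deriv (circleMap 0 1) θ • (fun z => (z - r)⁻¹ • K z) (circleMap 0 1 θ))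
      (2 * Real.pi)
    rw [mul_zero, zero_add, mul_one] at h3
    rw [zero_add, ← h3]
    have h4 : (2 * Real.pi * I : ℂ) * ∫ a in (0:ℝ)..1,
        zc (a : UnitAddCircle) * (zc (a : UnitAddCircle) - r)⁻¹ * K (zc (a : UnitAddCircle)) =
        (2 * Real.pi : ℂ) * ∫ a in (0:ℝ)..1,
        I * (zc (a : UnitAddCircle) * (zc (a : UnitAddCircle) - r)⁻¹ *
          K (zc (a : UnitAddCircle))) := by
      rw [intervalIntegral.integral_const_mul, ← mul_assoc]
    rw [h4]
    rw [Complex.real_smul]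
    push_cast
    congr 1
    apply intervalIntegral.integral_congr
    intro a _
    have h5 : circleMap 0 1 (2 * Real.pi * a) = zc (a : UnitAddCircle) := by
      unfold zc
      rw [circleMap_zero, fourier_coe_apply]
      push_cast
      rw [one_mul]
      congr 1
      ring
    simp only [deriv_circleMap, h5, smul_eq_mul]
    ring
  rw [h2] at h1
  have h6 : (2 * Real.pi * I : ℂ) ≠ 0 := by
    simp [Real.pi_ne_zero]
  rw [smul_eq_mul] at h1
  exact (mul_left_cancel₀ h6 h1).symm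

/-- One-variable half-power sub-mean value inequality with the modulus of the Szegő kernel. -/
lemma one_var (P : Polynomial ℂ) {r : ℂ} (hr : ‖r‖ < 1) :
    ‖P.eval r‖ₑ ^ (1 / 2 : ℝ) ≤
      ∫⁻ t : UnitAddCircle, ‖P.eval (zc t)‖ₑ ^ (1 / 2 : ℝ) * ‖zc t - r‖ₑ⁻¹ ∂hc := by
  obtain ⟨K, hK, h1, h2⟩ := exists_sqrt_poly P
  have h3 : ∀ w : ℂ, ‖w‖ = 1 → ‖P.eval w‖ₑ ^ (1 / 2 : ℝ) = ‖K w‖ₑ := by
    intro w hw
    rw [← ofReal_norm, ← ofReal_norm, ← h1 w hw,
      ENNReal.ofReal_rpow_of_nonneg (by positivity) (by norm_num), ← Real.sqrt_eq_rpow,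
      Real.sqrt_sq (norm_nonneg _)]
  have h4 : ‖P.eval r‖ₑ ^ (1 / 2 : ℝ) ≤ ‖K r‖ₑ := by
    rw [← ofReal_norm, ← ofReal_norm,
      ENNReal.ofReal_rpow_of_nonneg (by positivity) (by norm_num), ← Real.sqrt_eq_rpow]
    apply ENNReal.ofReal_le_ofReal
    rw [Real.sqrt_le_left (norm_nonneg _)]
    exact h2 r hr
  refine h4.trans ?_
  rw [cauchy_addCircle hK hr]
  refine (enorm_integral_le_lintegral_enorm _).trans ?_
  apply lintegral_mono
  intro t
  have h5 : zc t - r ≠ 0 := by
    intro h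
    rw [sub_eq_zero] at h
    have := norm_zc t
    rw [h] at this
    linarith
  show ‖zc t * (zc t - r)⁻¹ * K (zc t)‖ₑ ≤ ‖P.eval (zc t)‖ₑ ^ (1 / 2 : ℝ) * ‖zc t - r‖ₑ⁻¹
  rw [h3 _ (norm_zc t), enorm_mul, enorm_mul, enorm_inv h5]
  have h6 : ‖zc t‖ₑ = 1 := by
    rw [← ofReal_norm, norm_zc]; simp
  rw [h6, one_mul, mul_comm]

end Pool.Agent.Work.MP_a3494b_an
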