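import Mathlib
import Pool.Agent.Work.MP_a3494b_an.OneVarInt

set_option autoImplicit false

open Complex MeasureTheory Metric Set
open scoped ComplexConjugate ENNReal

namespace Pool.Agent.Work.MP_a3494b_an

/-- The infinite torus. -/
abbrev TT : Type := ℕ → UnitAddCircle

/-- Haar probability measure on the infinite torus. -/
noncomputable abbrev mu : Measure TT :=
  Measure.infinitePi (fun _ : ℕ => AddCircle.haarAddCircle (T := 1))

/-- Translation of the `j`-th coordinate by `t`. -/
def sh (j : ℕ) (t : UnitAddCircle) (x : TT) : TT := fun k => x k + (Pi.single j t : TT) k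

lemma sh_self (j : ℕ) (t : UnitAddCircle) (x : TT) : sh j t x j = x j + t := by
  simp [sh]

lemma sh_ne {j k : ℕ} (h : k ≠ j) (t : UnitAddCircle) (x : TT) : sh j t x k = x k := by
  simp [sh, h]

/-- Translation of the `j`-th coordinate preserves the measure. -/
lemma mp_shift (j : ℕ) (t : UnitAddCircle) :
    MeasurePreserving (sh j t) mu mu := by
  refine ⟨by unfold sh; fun_prop, ?_⟩
  have h := Measure.infinitePi_map_pi (fun _ : ℕ => AddCircle.haarAddCircle (T := 1))
    (f := fun i (y : UnitAddCircle) => y + (Pi.single j t : TT) i) (fun i => by fun_prop)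
  refine h.trans ?_
  congr 1
  funext i
  exact (measurePreserving_add_right _ _).map_eq

lemma lintegral_shift {Φ : TT → ℝ≥0∞} (hΦ : Measurable Φ) (j : ℕ) :
    ∫⁻ x, Φ x ∂mu = ∫⁻ x, ∫⁻ t, Φ (sh j t x) ∂hc ∂mu := by
  rw [lintegral_lintegral_swap]
  · have h : ∀ t : UnitAddCircle, ∫⁻ x, Φ (sh j t x) ∂mu = ∫⁻ x, Φ x ∂mu := by
      intro t
      exact (mp_shift j t).lintegral_comp hΦ
    simp_rw [h]
    simp
  · apply Measurable.aemeasurable
    apply hΦ.comp
    have : Continuous (fun p : TT × UnitAddCircle => sh j p.2 p.1) := by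
      apply continuous_pi
      intro i
      by_cases hij : i = j
      · subst hij
        simp only [sh_self]
        fun_prop
      · simp only [sh_ne hij]
        fun_prop
    exact this.measurable

/-- Mixed point: the first `j` coordinates on the torus, the others at `r`. -/
noncomputable def mix (r : ℕ → ℂ) (j : ℕ) (x : TT) : ℕ → ℂ :=
  fun k => if k < j then zc (x k) else r k

lemma continuous_mix (r : ℕ → ℂ) (j : ℕ) : Continuous (mix r j) := by
  apply continuous_pi
  intro k
  unfold mix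
  by_cases h : k < j
  · simp only [h, if_true]
    exact continuous_zc.comp (continuous_apply k)
  · simp only [h, if_false]
    exact continuous_const

/-- The integrand of the iterated inequality. -/
noncomputable def PhiJ (G : (ℕ → ℂ) → ℂ) (r : ℕ → ℂ) (j : ℕ) (x : TT) : ℝ≥0∞ :=
  ‖G (mix r j x)‖ₑ ^ (1 / 2 : ℝ) * ∏ k ∈ Finset.range j, ‖zc (x k) - r k‖ₑ⁻¹

lemma measurable_PhiJ {G : (ℕ → ℂ) → ℂ} (hG : Continuous G) (r : ℕ → ℂ) (j : ℕ) :
    Measurable (PhiJ G r j) := by
  unfold PhiJ
  apply Measurable.mul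
  · apply Measurable.pow_const
    exact (hG.comp (continuous_mix r j)).enorm.measurable
  · apply Finset.measurable_prod
    intro k _
    apply Measurable.inv
    have : Continuous (fun x : TT => zc (x k) - r k) :=
      (continuous_zc.comp (continuous_apply k)).sub continuous_const
    exact this.enorm.measurable

lemma mix_shift (r : ℕ → ℂ) (j : ℕ) (x : TT) (t : UnitAddCircle) :
    mix r (j + 1) (sh j t x) = Function.update (mix r j x) j (zc (x j + t)) := by
  funext k
  unfold mix
  by_cases hk : k = j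
  · subst hk
    simp [sh_self]
  · rw [Function.update_of_ne hk]
    by_cases hkj : k < j
    · have : k < j + 1 := by omega
      simp [hkj, this, sh_ne hk]
    · have : ¬ (k < j + 1) := by omega
      simp [hkj, this]

lemma PhiJ_step {G : (ℕ → ℂ) → ℂ} (hG : Continuous G)
    (hpoly : ∀ (w : ℕ → ℂ) (j : ℕ), ∃ P : Polynomial ℂ, ∀ t : ℂ,
      G (Function.update w j t) = P.eval t)
    {r : ℕ → ℂ} (hr : ∀ k, ‖r k‖ < 1) (j : ℕ) :
    ∫⁻ x, PhiJ G r j x ∂mu ≤ ∫⁻ x, PhiJ G r (j + 1) x ∂mu := by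
  rw [lintegral_shift (measurable_PhiJ hG r (j + 1)) j]
  apply lintegral_mono
  intro x
  obtain ⟨P, hP⟩ := hpoly (mix r j x) j
  have h1 : G (mix r j x) = P.eval (r j) := by
    rw [← hP]
    congr 1
    have : r j = mix r j x j := by simp [mix]
    rw [this, Function.update_eq_self]
  have h2 : ∀ t, PhiJ G r (j + 1) (sh j t x) =
      (‖P.eval (zc (x j + t))‖ₑ ^ (1 / 2 : ℝ) * ‖zc (x j + t) - r j‖ₑ⁻¹) *
      ∏ k ∈ Finset.range j, ‖zc (x k) - r k‖ₑ⁻¹ := by
    intro t
    unfold PhiJ
    rw [mix_shift, hP, Finset.prod_range_succ]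
    have h3 : ∏ k ∈ Finset.range j, ‖zc (sh j t x k) - r k‖ₑ⁻¹ =
        ∏ k ∈ Finset.range j, ‖zc (x k) - r k‖ₑ⁻¹ := by
      apply Finset.prod_congr rfl
      intro k hk
      rw [Finset.mem_range] at hk
      have : k ≠ j := by omega
      rw [sh_ne this]
    rw [h3, sh_self]
    ring
  show PhiJ G r j x ≤ ∫⁻ t, PhiJ G r (j + 1) (sh j t x) ∂hc
  simp_rw [h2]
  have hmeas : Measurable (fun t : UnitAddCircle =>
      ‖P.eval (zc t)‖ₑ ^ (1 / 2 : ℝ) * ‖zc t - r j‖ₑ⁻¹) := by
    apply Measurable.mul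
    · apply Measurable.pow_const
      exact (P.continuous.comp continuous_zc).enorm.measurable
    · apply Measurable.inv
      exact (continuous_zc.sub continuous_const).enorm.measurable
  rw [lintegral_mul_const]
  · have h5 := lintegral_add_left_eq_self (μ := hc) (fun t : UnitAddCircle =>
      ‖P.eval (zc t)‖ₑ ^ (1 / 2 : ℝ) * ‖zc t - r j‖ₑ⁻¹) (x j)
    rw [h5]
    unfold PhiJ
    rw [h1]
    gcongr
    exact one_var P (hr j)
  · exact hmeas.comp (measurable_const_add (x j))

/-- Half-power sub-mean value inequality on the polydisc. -/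
lemma multi_var {G : (ℕ → ℂ) → ℂ} (hG : Continuous G)
    (hpoly : ∀ (w : ℕ → ℂ) (j : ℕ), ∃ P : Polynomial ℂ, ∀ t : ℂ,
      G (Function.update w j t) = P.eval t)
    {r : ℕ → ℂ} (hr : ∀ k, ‖r k‖ < 1) (N : ℕ)
    (hN : ∀ w w' : ℕ → ℂ, (∀ k < N, w k = w' k) → G w = G w') :
    ‖G r‖ₑ ^ (1 / 2 : ℝ) ≤ ∫⁻ x, ‖G (fun k => zc (x k))‖ₑ ^ (1 / 2 : ℝ) *
      ∏ k ∈ Finset.range N, ‖zc (x k) - r k‖ₑ⁻¹ ∂mu := by
  have h0 : ∀ j : ℕ, ‖G r‖ₑ ^ (1 / 2 : ℝ) ≤ ∫⁻ x, PhiJ G r j x ∂mu := by
    intro j
    induction j with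
    | zero =>
      have : ∀ x, PhiJ G r 0 x = ‖G r‖ₑ ^ (1 / 2 : ℝ) := by
        intro x
        have hm : mix r 0 x = r := by funext k; simp [mix]
        simp [PhiJ, hm]
      simp [this]
    | succ j ih => exact ih.trans (PhiJ_step hG hpoly hr j)
  refine (h0 N).trans (le_of_eq ?_)
  apply lintegral_congr
  intro x
  unfold PhiJ
  rw [hN (mix r N x) (fun k => zc (x k)) (fun k hk => by simp [mix, hk])]

/-- Integral of a product of functions of distinct coordinates. -/
lemma lintegral_prod_coord {ψ : ℕ → UnitAddCircle → ℝ≥0∞} (hψ : ∀ k, Measurable (ψ k)) (N : ℕ) :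
    ∫⁻ x, ∏ k ∈ Finset.range N, ψ k (x k) ∂mu = ∏ k ∈ Finset.range N, ∫⁻ t, ψ k t ∂hc := by
  have hmeas : ∀ N : ℕ, Measurable (fun x : TT => ∏ k ∈ Finset.range N, ψ k (x k)) := by
    intro N
    apply Finset.measurable_prod
    intro k _
    exact (hψ k).comp (measurable_pi_apply k)
  induction N with
  | zero => simp
  | succ N ih =>
    rw [lintegral_shift (hmeas (N + 1)) N, Finset.prod_range_succ, ← ih]
    have h2 : ∀ (x : TT) (t : UnitAddCircle),
        ∏ k ∈ Finset.range (N + 1), ψ k (sh N t x k) =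
        (∏ k ∈ Finset.range N, ψ k (x k)) * ψ N (x N + t) := by
      intro x t
      rw [Finset.prod_range_succ]
      have h3 : ∏ k ∈ Finset.range N, ψ k (sh N t x k) =
          ∏ k ∈ Finset.range N, ψ k (x k) := by
        apply Finset.prod_congr rfl
        intro k hk
        rw [Finset.mem_range] at hk
        have : k ≠ N := by omega
        rw [sh_ne this]
      rw [h3, sh_self]
    simp_rw [h2]
    have h4 : ∀ x : TT, ∫⁻ t, (∏ k ∈ Finset.range N, ψ k (x k)) * ψ N (x N + t) ∂hc =
        (∏ k ∈ Finset.range N, ψ k (x k)) * ∫⁻ t, ψ N t ∂hc := by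
      intro x
      have h5 : Measurable (fun t => ψ N (x N + t)) :=
        (hψ N).comp (measurable_const_add (x N))
      rw [lintegral_const_mul _ h5]
      rw [lintegral_add_left_eq_self (μ := hc) (ψ N) (x N)]
    simp_rw [h4]
    rw [lintegral_mul_const _ (hmeas N)]

end Pool.Agent.Work.MP_a3494b_an
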