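import Mathlib
import Pool.Agent.Work.MP_a3494b_an.MultiVar

set_option autoImplicit false

open Complex MeasureTheory Metric Set
open scoped ComplexConjugate ENNReal

namespace Pool.Agent.Work.MP_a3494b_an

lemma norm_sub_sq {z : ℂ} (hz : ‖z‖ = 1) (a : ℝ) :
    ‖z - a‖ ^ 2 = 1 - 2 * a * z.re + a ^ 2 := by
  rw [← Complex.normSq_eq_norm_sq, Complex.normSq_apply]
  have h : z.re * z.re + z.im * z.im = 1 := by
    have := Complex.sq_norm z
    rw [Complex.normSq_apply, hz] at this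
    linarith
  simp only [sub_re, sub_im, ofReal_re, ofReal_im]
  nlinarith

/-- Real inequality behind the kernel bound. -/
lemma real_kernel_ineq {a c : ℝ} (ha : 0 ≤ a) (ha2 : a ^ 2 ≤ 1 / 2) (hc1 : -1 ≤ c) (hc2 : c ≤ 1) :
    1 ≤ (1 + a * c + a ^ 2 * ((3 * c ^ 2 - 1) / 2) + 100 * a ^ 3) ^ 2 *
      (1 - 2 * a * c + a ^ 2) ∧
    0 < 1 + a * c + a ^ 2 * ((3 * c ^ 2 - 1) / 2) + 100 * a ^ 3 := by
  have ha57 : a ≤ 5 / 7 := by nlinarith
  have hE : 7 / 12 ≤ 1 + a * c + a ^ 2 * ((3 * c ^ 2 - 1) / 2) := by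
    nlinarith [sq_nonneg (3 * a * c + 1)]
  have hD : 4 / 49 ≤ 1 - 2 * a * c + a ^ 2 := by nlinarith
  have ha3 : 0 ≤ a ^ 3 := by positivity
  have hc2' : c ^ 2 ≤ 1 := by nlinarith
  have hc0 : 0 ≤ c ^ 2 := sq_nonneg c
  set q : ℝ := (3 * c ^ 2 - 1) / 2 with hq
  have hq1 : q ≤ 1 := by rw [hq]; linarith
  have hq2 : -(1 / 2) ≤ q := by rw [hq]; linarith
  have hcc : c ^ 2 = (2 * q + 1) / 3 := by rw [hq]; ring
  constructor
  · have hexp : (1 + a * c + a ^ 2 * q) ^ 2 * (1 - 2 * a * c + a ^ 2) =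
        1 + a ^ 3 * ((3 * c - 5 * c ^ 3) + a * (q ^ 2 - 4 * c ^ 2 * q + c ^ 2 + 2 * q) +
          a ^ 2 * (2 * c * q - 2 * c * q ^ 2) + a ^ 3 * q ^ 2) := by
      rw [hq]; ring
    have hR1 : -2 ≤ 3 * c - 5 * c ^ 3 := by
      have : 3 * c - 5 * c ^ 3 + 2 = (1 - c) * (5 * c ^ 2 + 5 * c + 2) := by ring
      nlinarith [mul_nonneg (sub_nonneg.mpr hc2) (by nlinarith [sq_nonneg (2 * c + 1)] :
        (0:ℝ) ≤ 5 * c ^ 2 + 5 * c + 2)]
    have hR2 : -4 ≤ q ^ 2 - 4 * c ^ 2 * q + c ^ 2 + 2 * q := by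
      nlinarith [sq_nonneg (q - 1)]
    have hR3 : -2 ≤ 2 * c * q - 2 * c * q ^ 2 := by
      have h1 : 2 * c * q - 2 * c * q ^ 2 = 2 * c * (q * (1 - q)) := by ring
      have h2 : q * (1 - q) ≤ 1 := by nlinarith
      have h3 : -1 ≤ q * (1 - q) := by nlinarith
      rw [h1]
      nlinarith [abs_le.mp (show |c * (q * (1 - q))| ≤ 1 by
        rw [abs_mul]
        exact mul_le_one₀ (abs_le.mpr ⟨hc1, hc2⟩) (abs_nonneg _) (abs_le.mpr ⟨h3, h2⟩))]
    have hR4 : 0 ≤ a ^ 3 * q ^ 2 := by positivity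
    have hR : -9 ≤ (3 * c - 5 * c ^ 3) + a * (q ^ 2 - 4 * c ^ 2 * q + c ^ 2 + 2 * q) +
          a ^ 2 * (2 * c * q - 2 * c * q ^ 2) + a ^ 3 * q ^ 2 := by
      have h1 : -4 ≤ a * (q ^ 2 - 4 * c ^ 2 * q + c ^ 2 + 2 * q) := by nlinarith
      have h2 : -2 ≤ a ^ 2 * (2 * c * q - 2 * c * q ^ 2) := by nlinarith [sq_nonneg a]
      linarith
    have h5 : 7 / 12 * (4 / 49) ≤ (1 + a * c + a ^ 2 * q) * (1 - 2 * a * c + a ^ 2) :=
      mul_le_mul hE hD (by norm_num) (by linarith)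
    have h6 : (1 + a * c + a ^ 2 * q + 100 * a ^ 3) ^ 2 * (1 - 2 * a * c + a ^ 2) =
        (1 + a * c + a ^ 2 * q) ^ 2 * (1 - 2 * a * c + a ^ 2) +
        200 * a ^ 3 * ((1 + a * c + a ^ 2 * q) * (1 - 2 * a * c + a ^ 2)) +
        (100 * a ^ 3) ^ 2 * (1 - 2 * a * c + a ^ 2) := by ring
    rw [h6, hexp]
    have h7 : 0 ≤ (100 * a ^ 3) ^ 2 * (1 - 2 * a * c + a ^ 2) := by
      apply mul_nonneg (sq_nonneg _); linarith
    have h8 : a ^ 3 * (-9) ≤ a ^ 3 * ((3 * c - 5 * c ^ 3) +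
          a * (q ^ 2 - 4 * c ^ 2 * q + c ^ 2 + 2 * q) +
          a ^ 2 * (2 * c * q - 2 * c * q ^ 2) + a ^ 3 * q ^ 2) :=
      mul_le_mul_of_nonneg_left hR ha3
    have h9 : 200 * a ^ 3 * (7 / 12 * (4 / 49)) ≤
        200 * a ^ 3 * ((1 + a * c + a ^ 2 * q) * (1 - 2 * a * c + a ^ 2)) :=
      mul_le_mul_of_nonneg_left h5 (by positivity)
    linarith
  · linarith

lemma kernel_pointwise {z : ℂ} (hz : ‖z‖ = 1) {a : ℝ} (ha : 0 ≤ a) (ha2 : a ^ 2 ≤ 1 / 2) :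
    ‖z - a‖⁻¹ ≤ 1 + a * z.re + a ^ 2 * ((3 * z.re ^ 2 - 1) / 2) + 100 * a ^ 3 := by
  have hc := abs_le.mp ((Complex.abs_re_le_norm z).trans hz.le)
  obtain ⟨h1, h2⟩ := real_kernel_ineq ha ha2 hc.1 hc.2
  rw [← norm_sub_sq hz a, ← mul_pow] at h1
  have hpos : 0 < ‖z - a‖ := by
    rw [norm_pos_iff]
    intro h
    rw [h] at h1
    norm_num at h1
  rw [inv_le_iff_one_le_mul₀ hpos]
  by_contra hcon
  push Not at hcon
  have h3 : 0 ≤ (1 + a * z.re + a ^ 2 * ((3 * z.re ^ 2 - 1) / 2) + 100 * a ^ 3) * ‖z - a‖ := by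
    positivity
  have h4 := pow_lt_one₀ h3 hcon two_ne_zero
  linarith

lemma kernel_prod_pointwise {z : ℂ} (hz : ‖z‖ = 1) {a b : ℝ} (ha : 0 ≤ a) (ha2 : a ^ 2 ≤ 1 / 2)
    (hb : 0 ≤ b) (hb2 : b ^ 2 ≤ 1 / 2) :
    ‖z - a‖⁻¹ * ‖z - b‖⁻¹ ≤ 1 + (a + b) * z.re + (a ^ 2 + b ^ 2) * ((3 * z.re ^ 2 - 1) / 2) +
      a * b * z.re ^ 2 + 6000 * (a ^ 3 + b ^ 3) := by
  have h1 := kernel_pointwise hz ha ha2
  have h2 := kernel_pointwise hz hb hb2
  have h3 : ‖z - a‖⁻¹ * ‖z - b‖⁻¹ ≤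
      (1 + a * z.re + a ^ 2 * ((3 * z.re ^ 2 - 1) / 2) + 100 * a ^ 3) *
      (1 + b * z.re + b ^ 2 * ((3 * z.re ^ 2 - 1) / 2) + 100 * b ^ 3) :=
    mul_le_mul h1 h2 (by positivity) (le_trans (by positivity) h1)
  refine h3.trans ?_
  have hc := abs_le.mp ((Complex.abs_re_le_norm z).trans hz.le)
  obtain ⟨hc1, hc2⟩ := hc
  set c := z.re
  have ha1 : a ≤ 1 := by nlinarith
  have hb1 : b ≤ 1 := by nlinarith
  have hcc : c ^ 2 ≤ 1 := by nlinarith
  have hc0 : 0 ≤ c ^ 2 := sq_nonneg c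
  set q : ℝ := (3 * c ^ 2 - 1) / 2 with hq
  have hq1 : q ≤ 1 := by rw [hq]; linarith
  have hq2 : -1 ≤ q := by rw [hq]; linarith
  have hcq : c * q ≤ 1 := by
    have : |c * q| ≤ 1 := by
      rw [abs_mul]
      exact mul_le_one₀ (abs_le.mpr ⟨hc1, hc2⟩) (abs_nonneg _) (abs_le.mpr ⟨hq2, hq1⟩)
    exact (abs_le.mp this).2
  have hqq : q ^ 2 ≤ 1 := by nlinarith
  have e1 : (1 + a * c + a ^ 2 * q + 100 * a ^ 3) * (1 + b * c + b ^ 2 * q + 100 * b ^ 3) =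
      1 + (a + b) * c + (a ^ 2 + b ^ 2) * q + a * b * c ^ 2 +
      (a * b * (a + b) * (c * q) + a ^ 2 * b ^ 2 * q ^ 2 +
      100 * a ^ 3 * (1 + b * c + b ^ 2 * q) + 100 * b ^ 3 * (1 + a * c + a ^ 2 * q) +
      10000 * (a ^ 3 * b ^ 3)) := by ring
  rw [e1]
  have hab : 0 ≤ a * b := mul_nonneg ha hb
  have f1 : a * b * (a + b) * (c * q) ≤ a * b * (a + b) * 1 :=
    mul_le_mul_of_nonneg_left hcq (by positivity)
  have f2 : a * b * (a + b) ≤ a ^ 3 + b ^ 3 := by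
    nlinarith [mul_nonneg (add_nonneg ha hb) (sq_nonneg (a - b))]
  have f3 : a ^ 2 * b ^ 2 * q ^ 2 ≤ a ^ 2 * b ^ 2 * 1 :=
    mul_le_mul_of_nonneg_left hqq (by positivity)
  have f4 : a ^ 2 * b ^ 2 ≤ a * b * (a + b) := by
    have : a * b ≤ a + b := by nlinarith
    have e : a ^ 2 * b ^ 2 = a * b * (a * b) := by ring
    rw [e]
    exact mul_le_mul_of_nonneg_left this hab
  have f5 : 1 + b * c + b ^ 2 * q ≤ 3 := by
    have g1 : b * c ≤ b * 1 := mul_le_mul_of_nonneg_left hc2 hb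
    have g2 : b ^ 2 * q ≤ b ^ 2 * 1 := mul_le_mul_of_nonneg_left hq1 (sq_nonneg b)
    linarith
  have f6 : 1 + a * c + a ^ 2 * q ≤ 3 := by
    have g1 : a * c ≤ a * 1 := mul_le_mul_of_nonneg_left hc2 ha
    have g2 : a ^ 2 * q ≤ a ^ 2 * 1 := mul_le_mul_of_nonneg_left hq1 (sq_nonneg a)
    linarith
  have f7 : 100 * a ^ 3 * (1 + b * c + b ^ 2 * q) ≤ 100 * a ^ 3 * 3 :=
    mul_le_mul_of_nonneg_left f5 (by positivity)
  have f8 : 100 * b ^ 3 * (1 + a * c + a ^ 2 * q) ≤ 100 * b ^ 3 * 3 :=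
    mul_le_mul_of_nonneg_left f6 (by positivity)
  have f9 : a ^ 3 * b ^ 3 ≤ (a ^ 3 + b ^ 3) / 2 := by
    have g1 : a ^ 3 ≤ 1 := pow_le_one₀ ha ha1
    have g2 : b ^ 3 ≤ 1 := pow_le_one₀ hb hb1
    have g3 : 0 ≤ a ^ 3 := by positivity
    have g4 : 0 ≤ b ^ 3 := by positivity
    have g5 : a ^ 3 * b ^ 3 ≤ a ^ 3 * 1 := mul_le_mul_of_nonneg_left g2 g3
    have g6 : a ^ 3 * b ^ 3 ≤ 1 * b ^ 3 := mul_le_mul_of_nonneg_right g1 g4
    linarith
  have f10 : 0 ≤ a ^ 3 := by positivity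
  have f11 : 0 ≤ b ^ 3 := by positivity
  linarith

lemma integral_fourier_zero {n : ℤ} (hn : n ≠ 0) :
    ∫ t : UnitAddCircle, (fourier n t : ℂ) ∂hc = 0 := by
  have h := fourier_add_half_inv_index (T := 1) hn (by norm_num)
  exact integral_eq_zero_of_add_right_eq_neg h

lemma integrable_cont {f : UnitAddCircle → ℝ} (hf : Continuous f) : Integrable f hc :=
  hf.integrable_of_hasCompactSupport (HasCompactSupport.of_compactSpace f)

lemma integrable_contC {f : UnitAddCircle → ℂ} (hf : Continuous f) : Integrable f hc :=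
  hf.integrable_of_hasCompactSupport (HasCompactSupport.of_compactSpace f)

lemma integral_zc_re : ∫ t : UnitAddCircle, (zc t).re ∂hc = 0 := by
  have h1 : ∫ t : UnitAddCircle, (zc t).re ∂hc = (∫ t : UnitAddCircle, zc t ∂hc).re := by
    have := _root_.integral_re (μ := hc) (f := zc) (integrable_contC continuous_zc)
    simpa using this
  rw [h1]
  have := integral_fourier_zero (n := 1) one_ne_zero
  rw [this]; simp

lemma re_sq (t : UnitAddCircle) : (zc t).re ^ 2 = 1 / 2 + (fourier 2 t : ℂ).re / 2 := by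
  have h1 : (fourier 2 t : ℂ) = zc t * zc t := by
    have : (2 : ℤ) = 1 + 1 := by norm_num
    rw [this, fourier_add]
  rw [h1, Complex.mul_re]
  have h := norm_zc t
  have h2 := Complex.sq_norm (zc t)
  rw [Complex.normSq_apply, h] at h2
  nlinarith

lemma integral_re_sq : ∫ t : UnitAddCircle, (zc t).re ^ 2 ∂hc = 1 / 2 := by
  simp_rw [re_sq]
  have hcont : Continuous (fun t : UnitAddCircle => (fourier 2 t : ℂ).re) :=
    Complex.continuous_re.comp (fourier (T := 1) 2).continuous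
  rw [integral_add (integrable_cont continuous_const) (integrable_cont (hcont.div_const 2))]
  have h0 : ∫ t : UnitAddCircle, (fourier 2 t : ℂ).re ∂hc = 0 := by
    have h1 : ∫ t : UnitAddCircle, (fourier 2 t : ℂ).re ∂hc =
        (∫ t : UnitAddCircle, (fourier 2 t : ℂ) ∂hc).re := by
      have := _root_.integral_re (μ := hc) (f := fun t : UnitAddCircle => (fourier 2 t : ℂ))
        (integrable_contC (fourier (T := 1) 2).continuous)
      simpa using this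
    rw [h1, integral_fourier_zero (by norm_num)]
    simp
  have h3 : ∫ t : UnitAddCircle, (fourier 2 t : ℂ).re / 2 ∂hc = 0 := by
    rw [integral_div, h0]; simp
  rw [h3]
  simp

/-- One-variable bound for the Gram kernel. -/
lemma kernel_lintegral {a b : ℝ} (ha : 0 ≤ a) (ha2 : a ^ 2 ≤ 1 / 2)
    (hb : 0 ≤ b) (hb2 : b ^ 2 ≤ 1 / 2) :
    ∫⁻ t : UnitAddCircle, ‖zc t - a‖ₑ⁻¹ * ‖zc t - b‖ₑ⁻¹ ∂hc ≤
      ENNReal.ofReal (Real.exp ((a + b) ^ 2 / 4 + 6000 * (a ^ 3 + b ^ 3))) := by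
  have hne : ∀ (t : UnitAddCircle) (a : ℝ), a ^ 2 ≤ 1 / 2 → zc t - a ≠ 0 := by
    intro t a ha2 h
    rw [sub_eq_zero] at h
    have h1 := norm_zc t
    rw [h, Complex.norm_real, Real.norm_eq_abs] at h1
    have h2 : a ^ 2 = 1 := by rw [← sq_abs, h1]; norm_num
    linarith
  set B : UnitAddCircle → ℝ := fun t => 1 + (a + b) * (zc t).re +
      (a ^ 2 + b ^ 2) * ((3 * (zc t).re ^ 2 - 1) / 2) +
      a * b * (zc t).re ^ 2 + 6000 * (a ^ 3 + b ^ 3) with hB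
  have hcre : Continuous (fun t : UnitAddCircle => (zc t).re) :=
    Complex.continuous_re.comp continuous_zc
  have hBc : Continuous B := by
    rw [hB]; fun_prop
  have h1 : ∀ t : UnitAddCircle, ‖zc t - a‖ₑ⁻¹ * ‖zc t - b‖ₑ⁻¹ ≤ ENNReal.ofReal (B t) := by
    intro t
    rw [← enorm_inv (hne t a ha2), ← enorm_inv (hne t b hb2), ← ofReal_norm, ← ofReal_norm,
      norm_inv, norm_inv, ← ENNReal.ofReal_mul (by positivity)]
    exact ENNReal.ofReal_le_ofReal (kernel_prod_pointwise (norm_zc t) ha ha2 hb hb2)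
  have hB0 : ∀ t, 0 ≤ B t := by
    intro t
    refine le_trans ?_ (kernel_prod_pointwise (norm_zc t) ha ha2 hb hb2)
    positivity
  have h2 : ∫ t, B t ∂hc = 1 + (a + b) ^ 2 / 4 + 6000 * (a ^ 3 + b ^ 3) := by
    have e : ∀ t, B t = (1 - (a ^ 2 + b ^ 2) / 2 + 6000 * (a ^ 3 + b ^ 3)) +
        ((a + b) * (zc t).re + ((a ^ 2 + b ^ 2) * (3 / 2) + a * b) * (zc t).re ^ 2) := by
      intro t; rw [hB]; ring
    simp_rw [e]
    have i1 : Integrable (fun t : UnitAddCircle => (a + b) * (zc t).re) hc :=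
      integrable_cont (by fun_prop)
    have i2 : Integrable (fun t : UnitAddCircle =>
        ((a ^ 2 + b ^ 2) * (3 / 2) + a * b) * (zc t).re ^ 2) hc :=
      integrable_cont (by fun_prop)
    have i3 : Integrable (fun t : UnitAddCircle =>
        (1 - (a ^ 2 + b ^ 2) / 2 + 6000 * (a ^ 3 + b ^ 3))) hc :=
      integrable_cont continuous_const
    have e1 : ∫ t : UnitAddCircle, (a + b) * (zc t).re ∂hc = 0 := by
      rw [integral_const_mul, integral_zc_re, mul_zero]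
    have e2 : ∫ t : UnitAddCircle, ((a ^ 2 + b ^ 2) * (3 / 2) + a * b) * (zc t).re ^ 2 ∂hc =
        ((a ^ 2 + b ^ 2) * (3 / 2) + a * b) * (1 / 2) := by
      rw [integral_const_mul, integral_re_sq]
    have i4 : Integrable (fun t : UnitAddCircle => (a + b) * (zc t).re +
        ((a ^ 2 + b ^ 2) * (3 / 2) + a * b) * (zc t).re ^ 2) hc := i1.add i2
    rw [integral_add i3 i4, integral_add i1 i2, e1, e2, integral_const]
    simp
    ring
  calc ∫⁻ t : UnitAddCircle, ‖zc t - a‖ₑ⁻¹ * ‖zc t - b‖ₑ⁻¹ ∂hc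
      ≤ ∫⁻ t, ENNReal.ofReal (B t) ∂hc := lintegral_mono h1
    _ = ENNReal.ofReal (∫ t, B t ∂hc) := by
        rw [ofReal_integral_eq_lintegral_ofReal (integrable_cont hBc)
          (Filter.Eventually.of_forall hB0)]
    _ ≤ _ := by
        apply ENNReal.ofReal_le_ofReal
        rw [h2]
        have := Real.add_one_le_exp ((a + b) ^ 2 / 4 + 6000 * (a ^ 3 + b ^ 3))
        linarith

end Pool.Agent.Work.MP_a3494b_an
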