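import Mathlib
import Pool.Agent.Work.MP_a3494b_an.Kernel

set_option autoImplicit false

open MeasureTheory Metric Set
open scoped ComplexConjugate ENNReal

namespace Pool.Agent.Work.MP_a3494b_an

/-- The `k`-th prime as a real number. -/
noncomputable def pk (k : ℕ) : ℝ := (Nat.nth Nat.Prime k : ℝ)

lemma prime_nth (k : ℕ) : (Nat.nth Nat.Prime k).Prime :=
  Nat.nth_mem_of_infinite Nat.infinite_setOfPred_prime k

lemma two_le_pk (k : ℕ) : 2 ≤ pk k := by
  unfold pk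
  exact_mod_cast (prime_nth k).two_le

lemma pk_pos (k : ℕ) : 0 < pk k := by linarith [two_le_pk k]

/-- `n ↦ n ^ (-s)` as a monoid homomorphism. -/
noncomputable def rpowHom (s : ℝ) : ℕ →* ℝ where
  toFun n := (n : ℝ) ^ (-s)
  map_one' := by simp
  map_mul' a b := by
    push_cast
    rw [Real.mul_rpow (by positivity) (by positivity)]

lemma tsum_rpow_le {s : ℝ} (hs : 1 < s) : ∑' n : ℕ, 1 / (n + 1 : ℝ) ^ s ≤ s / (s - 1) := by
  have h := ZetaAsymptotics.zeta_limit_aux1 hs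
  have h2 : 0 ≤ ZetaAsymptotics.termTSum s :=
    tsum_nonneg (fun n => ZetaAsymptotics.term_nonneg (n + 1) s)
  have h3 : s / (s - 1) = 1 + 1 / (s - 1) := by
    have : s - 1 ≠ 0 := by linarith
    field_simp
    ring
  rw [h3]
  have h4 : 0 ≤ s * ZetaAsymptotics.termTSum s := by positivity
  linarith

lemma exp_sum_primes_le {s : ℝ} (hs : 1 < s) (N : ℕ) :
    Real.exp (∑ k ∈ Finset.range N, pk k ^ (-s)) ≤ s / (s - 1) := by
  classical
  set S : Finset ℕ := (Finset.range N).image (Nat.nth Nat.Prime) with hS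
  have hinj : Set.InjOn (Nat.nth Nat.Prime) (Finset.range N : Set ℕ) :=
    (Nat.nth_injective Nat.infinite_setOfPred_prime).injOn
  have hsum : Summable (fun n : ℕ => (n : ℝ) ^ (-s)) := by
    rw [Real.summable_nat_rpow]; linarith
  have hsum' : Summable (rpowHom s) := hsum
  have h1 := EulerProduct.prod_filter_prime_geometric_eq_tsum_factoredNumbers hsum' S
  have h2 : S.filter Nat.Prime = S := by
    apply Finset.filter_true_of_mem
    intro p hp
    rw [hS, Finset.mem_image] at hp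
    obtain ⟨k, _, rfl⟩ := hp
    exact prime_nth k
  rw [h2] at h1
  have h3 : ∏ p ∈ S, (1 - rpowHom s p)⁻¹ = ∏ k ∈ Finset.range N, (1 - pk k ^ (-s))⁻¹ := by
    rw [hS, Finset.prod_image hinj]
    rfl
  rw [h3] at h1
  have h4 : Real.exp (∑ k ∈ Finset.range N, pk k ^ (-s)) ≤
      ∏ k ∈ Finset.range N, (1 - pk k ^ (-s))⁻¹ := by
    rw [Real.exp_sum]
    apply Finset.prod_le_prod
    · intro k _; positivity
    · intro k _
      have hlt : pk k ^ (-s) < 1 := by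
        apply Real.rpow_lt_one_of_one_lt_of_neg
        · linarith [two_le_pk k]
        · linarith
      have h5 := Real.add_one_le_exp (-(pk k ^ (-s)))
      rw [le_inv_comm₀ (Real.exp_pos _) (by linarith), ← Real.exp_neg]
      linarith
  refine h4.trans ?_
  rw [h1]
  have h6 : ∑' m : Nat.factoredNumbers S, rpowHom s m ≤ ∑' n : ℕ, (n : ℝ) ^ (-s) :=
    Summable.tsum_subtype_le (fun n : ℕ => (n : ℝ) ^ (-s)) _ (fun n => by positivity) hsum
  refine h6.trans ?_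
  rw [hsum.tsum_eq_zero_add]
  have h7 : (((0 : ℕ) : ℝ)) ^ (-s) = 0 := by
    rw [Nat.cast_zero, Real.zero_rpow (by linarith)]
  rw [h7, zero_add]
  refine le_trans (le_of_eq ?_) (tsum_rpow_le hs)
  apply tsum_congr
  intro n
  push_cast
  rw [Real.rpow_neg (by positivity), one_div]

/-- The evaluation radii. -/
noncomputable def rk (k : ℕ) (u : ℝ) : ℝ := pk k ^ (-(1 + u) / 2)

lemma rk_pos (k : ℕ) (u : ℝ) : 0 < rk k u := Real.rpow_pos_of_pos (pk_pos k) _

lemma rk_mul (k : ℕ) (u v : ℝ) : rk k u * rk k v = pk k ^ (-(1 + (u + v) / 2)) := by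
  unfold rk
  rw [← Real.rpow_add (pk_pos k)]
  congr 1; ring

lemma rk_sq (k : ℕ) (u : ℝ) : rk k u ^ 2 = pk k ^ (-(1 + u)) := by
  rw [sq, rk_mul]
  congr 1; ring

lemma rk_sq_le (k : ℕ) {u : ℝ} (hu : 0 ≤ u) : rk k u ^ 2 ≤ 1 / 2 := by
  rw [rk_sq]
  calc pk k ^ (-(1 + u)) ≤ pk k ^ (-1 : ℝ) := by
        apply Real.rpow_le_rpow_of_exponent_le
        · linarith [two_le_pk k]
        · linarith
    _ = (pk k)⁻¹ := by rw [Real.rpow_neg_one]
    _ ≤ 1 / 2 := by
        rw [one_div]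
        exact inv_anti₀ (by norm_num) (two_le_pk k)

lemma rk_le (k : ℕ) {u : ℝ} (hu : 0 ≤ u) : rk k u ≤ 5 / 7 := by
  nlinarith [rk_sq_le k hu, rk_pos k u]

lemma rk_cube_le (k : ℕ) {u : ℝ} (hu : 0 ≤ u) : rk k u ^ 3 ≤ pk k ^ (-(3 / 2 : ℝ)) := by
  have : rk k u ^ 3 = pk k ^ (-(3 * (1 + u) / 2)) := by
    unfold rk
    rw [← Real.rpow_natCast, ← Real.rpow_mul (pk_pos k).le]
    congr 1; push_cast; ring
  rw [this]
  apply Real.rpow_le_rpow_of_exponent_le
  · linarith [two_le_pk k]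
  · linarith

/-- The constant of the Gram kernel bound. -/
noncomputable def C0 : ℝ := (3 : ℝ) ^ (12000 : ℕ) * (3 ^ (1 / 4 : ℝ) * 3 ^ (1 / 4 : ℝ) *
  6 ^ (1 / 2 : ℝ))

lemma C0_pos : 0 < C0 := by unfold C0; positivity

lemma gram_exp_bound (N : ℕ) {u v : ℝ} (hu : 0 < u) (hu2 : u ≤ 2) (hv : 0 < v) (hv2 : v ≤ 2) :
    Real.exp (∑ k ∈ Finset.range N, ((rk k u + rk k v) ^ 2 / 4 +
      6000 * (rk k u ^ 3 + rk k v ^ 3))) ≤
    C0 * (u ^ (-(1 / 4) : ℝ) * v ^ (-(1 / 4) : ℝ) * (u + v) ^ (-(1 / 2) : ℝ)) := by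
  have e1 : ∑ k ∈ Finset.range N, ((rk k u + rk k v) ^ 2 / 4 +
      6000 * (rk k u ^ 3 + rk k v ^ 3)) ≤
      (∑ k ∈ Finset.range N, pk k ^ (-(1 + u))) * (1 / 4) +
      (∑ k ∈ Finset.range N, pk k ^ (-(1 + v))) * (1 / 4) +
      (∑ k ∈ Finset.range N, pk k ^ (-(1 + (u + v) / 2))) * (1 / 2) +
      (∑ k ∈ Finset.range N, pk k ^ (-(3 / 2 : ℝ))) * (12000 : ℕ) := by
    rw [Finset.sum_mul, Finset.sum_mul, Finset.sum_mul, Finset.sum_mul,
      ← Finset.sum_add_distrib, ← Finset.sum_add_distrib, ← Finset.sum_add_distrib]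
    apply Finset.sum_le_sum
    intro k _
    have h1 := rk_cube_le k hu.le
    have h2 := rk_cube_le k hv.le
    have h3 := rk_sq k u
    have h4 := rk_sq k v
    have h5 := rk_mul k u v
    push_cast
    rw [← h3, ← h4, ← h5]
    nlinarith
  have hE : ∀ (S : ℝ) (c : ℝ), Real.exp (S * c) = Real.exp S ^ c := fun S c => Real.exp_mul S c
  refine (Real.exp_le_exp.mpr e1).trans ?_
  rw [Real.exp_add, Real.exp_add, Real.exp_add, hE, hE, hE, hE, Real.rpow_natCast]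
  have b1 : Real.exp (∑ k ∈ Finset.range N, pk k ^ (-(1 + u))) ^ (1 / 4 : ℝ) ≤
      3 ^ (1 / 4 : ℝ) * u ^ (-(1 / 4) : ℝ) := by
    have h := exp_sum_primes_le (s := 1 + u) (by linarith) N
    have h2 : (1 + u) / (1 + u - 1) ≤ 3 / u := by
      rw [add_sub_cancel_left]
      gcongr
      linarith
    calc _ ≤ (3 / u) ^ (1 / 4 : ℝ) := by
          apply Real.rpow_le_rpow (Real.exp_pos _).le (h.trans h2) (by norm_num)
      _ = _ := by
          rw [Real.div_rpow (by norm_num) hu.le, Real.rpow_neg hu.le, div_eq_mul_inv]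
  have b2 : Real.exp (∑ k ∈ Finset.range N, pk k ^ (-(1 + v))) ^ (1 / 4 : ℝ) ≤
      3 ^ (1 / 4 : ℝ) * v ^ (-(1 / 4) : ℝ) := by
    have h := exp_sum_primes_le (s := 1 + v) (by linarith) N
    have h2 : (1 + v) / (1 + v - 1) ≤ 3 / v := by
      rw [add_sub_cancel_left]
      gcongr
      linarith
    calc _ ≤ (3 / v) ^ (1 / 4 : ℝ) := by
          apply Real.rpow_le_rpow (Real.exp_pos _).le (h.trans h2) (by norm_num)
      _ = _ := by
          rw [Real.div_rpow (by norm_num) hv.le, Real.rpow_neg hv.le, div_eq_mul_inv]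
  have b3 : Real.exp (∑ k ∈ Finset.range N, pk k ^ (-(1 + (u + v) / 2))) ^ (1 / 2 : ℝ) ≤
      6 ^ (1 / 2 : ℝ) * (u + v) ^ (-(1 / 2) : ℝ) := by
    have h := exp_sum_primes_le (s := 1 + (u + v) / 2) (by linarith) N
    have h2 : (1 + (u + v) / 2) / (1 + (u + v) / 2 - 1) ≤ 6 / (u + v) := by
      rw [add_sub_cancel_left, div_le_div_iff₀ (by linarith) (by linarith)]
      nlinarith
    calc _ ≤ (6 / (u + v)) ^ (1 / 2 : ℝ) := by
          apply Real.rpow_le_rpow (Real.exp_pos _).le (h.trans h2) (by norm_num)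
      _ = _ := by
          rw [Real.div_rpow (by norm_num) (by linarith), Real.rpow_neg (by linarith),
            div_eq_mul_inv]
  have b4 : Real.exp (∑ k ∈ Finset.range N, pk k ^ (-(3 / 2 : ℝ))) ^ (12000 : ℕ) ≤
      3 ^ (12000 : ℕ) := by
    have h := exp_sum_primes_le (s := 3 / 2) (by norm_num) N
    have h2 : (3 / 2 : ℝ) / (3 / 2 - 1) = 3 := by norm_num
    rw [h2] at h
    exact pow_le_pow_left₀ (Real.exp_pos _).le h _
  calc _ ≤ (3 ^ (1 / 4 : ℝ) * u ^ (-(1 / 4) : ℝ)) * (3 ^ (1 / 4 : ℝ) * v ^ (-(1 / 4) : ℝ)) *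
        (6 ^ (1 / 2 : ℝ) * (u + v) ^ (-(1 / 2) : ℝ)) * 3 ^ (12000 : ℕ) := by
        gcongr
    _ = _ := by unfold C0; ring

end Pool.Agent.Work.MP_a3494b_an
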