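import Mathlib
import Pool.Agent.Work.MP_a3494b_an.Primes

set_option autoImplicit false

open MeasureTheory Metric Set
open scoped ComplexConjugate ENNReal

namespace Pool.Agent.Work.MP_a3494b_an

/-- The positive kernel: modulus of the Szegő kernel at the point `(p_k ^ (-(1+u)/2))_k`. -/
noncomputable def kap (N : ℕ) (u : ℝ) (x : TT) : ℝ≥0∞ :=
  ∏ k ∈ Finset.range N, ‖zc (x k) - (rk k u : ℂ)‖ₑ⁻¹

lemma continuous_rk (k : ℕ) : Continuous (rk k) := by
  unfold rk
  have h : pk k ≠ 0 := (pk_pos k).ne'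
  exact (Real.continuous_const_rpow h).comp (by fun_prop)

lemma measurable_kap_uncurry (N : ℕ) :
    Measurable (fun p : ℝ × TT => kap N p.1 p.2) := by
  unfold kap
  apply Finset.measurable_prod
  intro k _
  apply Measurable.inv
  have h1 : Continuous (fun p : ℝ × TT => zc (p.2 k) - (rk k p.1 : ℂ)) := by
    apply Continuous.sub
    · exact continuous_zc.comp ((continuous_apply k).comp continuous_snd)
    · exact Complex.continuous_ofReal.comp ((continuous_rk k).comp continuous_fst)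
  exact h1.enorm.measurable

lemma measurable_kap (N : ℕ) (u : ℝ) : Measurable (kap N u) := by
  have h : Measurable (fun x : TT => ((u, x) : ℝ × TT)) := measurable_prodMk_left
  exact Measurable.fun_comp (g := fun p : ℝ × TT => kap N p.1 p.2)
    (f := fun x : TT => ((u, x) : ℝ × TT)) (measurable_kap_uncurry N) h

lemma measurable_kap' (N : ℕ) (x : TT) : Measurable (fun u : ℝ => kap N u x) := by
  have h : Measurable (fun u : ℝ => ((u, x) : ℝ × TT)) := measurable_prodMk_right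
  exact Measurable.fun_comp (g := fun p : ℝ × TT => kap N p.1 p.2)
    (f := fun u : ℝ => ((u, x) : ℝ × TT)) (measurable_kap_uncurry N) h

lemma measurable_kap_swap (N : ℕ) : Measurable (fun p : TT × ℝ => kap N p.2 p.1) := by
  have h : Measurable (fun p : TT × ℝ => ((p.2, p.1) : ℝ × TT)) := measurable_swap
  exact Measurable.fun_comp (g := fun p : ℝ × TT => kap N p.1 p.2)
    (f := fun p : TT × ℝ => ((p.2, p.1) : ℝ × TT)) (measurable_kap_uncurry N) h

lemma kap_ne_top (N : ℕ) {u : ℝ} (hu : 0 ≤ u) (x : TT) :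
    kap N u x ≤ (ENNReal.ofReal (2 / 7))⁻¹ ^ N := by
  unfold kap
  have h : ∀ k ∈ Finset.range N, ‖zc (x k) - (rk k u : ℂ)‖ₑ⁻¹ ≤ (ENNReal.ofReal (2 / 7))⁻¹ := by
    intro k _
    rw [ENNReal.inv_le_inv, ← ofReal_norm]
    apply ENNReal.ofReal_le_ofReal
    have h1 := norm_sub_norm_le (zc (x k)) (rk k u : ℂ)
    rw [norm_zc, Complex.norm_real, Real.norm_eq_abs, abs_of_pos (rk_pos k u)] at h1
    linarith [rk_le k hu]
  refine (Finset.prod_le_prod' h).trans ?_
  simp

lemma le_kap (N : ℕ) {u : ℝ} (hu : 0 ≤ u) (x : TT) :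
    (2 : ℝ≥0∞)⁻¹ ^ N ≤ kap N u x := by
  unfold kap
  have h : ∀ k ∈ Finset.range N, (2 : ℝ≥0∞)⁻¹ ≤ ‖zc (x k) - (rk k u : ℂ)‖ₑ⁻¹ := by
    intro k _
    rw [ENNReal.inv_le_inv, ← ofReal_norm]
    have : (2 : ℝ≥0∞) = ENNReal.ofReal 2 := by simp
    rw [this]
    apply ENNReal.ofReal_le_ofReal
    have h1 := norm_sub_le (zc (x k)) (rk k u : ℂ)
    rw [norm_zc, Complex.norm_real, Real.norm_eq_abs, abs_of_pos (rk_pos k u)] at h1
    linarith [rk_le k hu]
  refine le_trans ?_ (Finset.prod_le_prod' h)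
  simp

/-- The Gram kernel bound. -/
lemma gram_bound (N : ℕ) {u v : ℝ} (hu : 0 < u) (hu2 : u ≤ 2) (hv : 0 < v) (hv2 : v ≤ 2) :
    ∫⁻ x, kap N u x * kap N v x ∂mu ≤
      ENNReal.ofReal (C0 * (u ^ (-(1 / 4) : ℝ) * v ^ (-(1 / 4) : ℝ) *
        (u + v) ^ (-(1 / 2) : ℝ))) := by
  have h1 : ∀ x : TT, kap N u x * kap N v x = ∏ k ∈ Finset.range N,
      (fun (k : ℕ) (t : UnitAddCircle) => ‖zc t - (rk k u : ℂ)‖ₑ⁻¹ * ‖zc t - (rk k v : ℂ)‖ₑ⁻¹)
        k (x k) := by
    intro x
    unfold kap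
    rw [← Finset.prod_mul_distrib]
  simp_rw [h1]
  have hmeas : ∀ k : ℕ, Measurable ((fun (k : ℕ) (t : UnitAddCircle) =>
      ‖zc t - (rk k u : ℂ)‖ₑ⁻¹ * ‖zc t - (rk k v : ℂ)‖ₑ⁻¹) k) := by
    intro k
    apply Measurable.mul
    · apply Measurable.inv
      exact (continuous_zc.sub continuous_const).enorm.measurable
    · apply Measurable.inv
      exact (continuous_zc.sub continuous_const).enorm.measurable
  rw [lintegral_prod_coord hmeas N]
  calc _ ≤ ∏ k ∈ Finset.range N, ENNReal.ofReal (Real.exp ((rk k u + rk k v) ^ 2 / 4 +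
        6000 * (rk k u ^ 3 + rk k v ^ 3))) := by
        apply Finset.prod_le_prod'
        intro k _
        exact kernel_lintegral (rk_pos k u).le (rk_sq_le k hu.le) (rk_pos k v).le
          (rk_sq_le k hv.le)
    _ = ENNReal.ofReal (Real.exp (∑ k ∈ Finset.range N, ((rk k u + rk k v) ^ 2 / 4 +
        6000 * (rk k u ^ 3 + rk k v ^ 3)))) := by
        rw [Real.exp_sum, ENNReal.ofReal_prod_of_nonneg]
        intro k _; positivity
    _ ≤ _ := ENNReal.ofReal_le_ofReal (gram_exp_bound N hu hu2 hv hv2)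

/-- The Schur test weight. -/
noncomputable def phi (u : ℝ) : ℝ≥0∞ := ENNReal.ofReal (u ^ (-(1 / 2) : ℝ))

lemma measurable_phi : Measurable phi := by
  unfold phi
  fun_prop

/-- The one-dimensional Schur integral. -/
lemma schur_integral {u : ℝ} (hu : 0 < u) (hu2 : u ≤ 2) :
    ∫⁻ v in Ioc 0 2, ENNReal.ofReal (u ^ (-(1 / 4) : ℝ) * v ^ (-(1 / 4) : ℝ) *
        (u + v) ^ (-(1 / 2) : ℝ)) * phi v ≤ ENNReal.ofReal (8 * u ^ (-(1 / 2) : ℝ)) := by
  have hsub : Ioc (0 : ℝ) 2 ⊆ Ioc 0 u ∪ Ioi u := by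
    intro v hv
    rcases le_or_gt v u with h | h
    · left; exact ⟨hv.1, h⟩
    · right; exact h
  have hmeas : Measurable (fun v : ℝ => ENNReal.ofReal (u ^ (-(1 / 4) : ℝ) * v ^ (-(1 / 4) : ℝ) *
        (u + v) ^ (-(1 / 2) : ℝ)) * phi v) :=
    Measurable.mul (by fun_prop) measurable_phi
  have p1 : ∫⁻ v in Ioc 0 u, ENNReal.ofReal (u ^ (-(1 / 4) : ℝ) * v ^ (-(1 / 4) : ℝ) *
        (u + v) ^ (-(1 / 2) : ℝ)) * phi v ≤ ENNReal.ofReal (4 * u ^ (-(1 / 2) : ℝ)) := by
    have i1 : IntegrableOn (fun v : ℝ => u ^ (-(3 / 4) : ℝ) * v ^ (-(3 / 4) : ℝ)) (Ioc 0 u) := by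
      have := (intervalIntegral.intervalIntegrable_rpow' (a := 0) (b := u) (r := -(3/4))
        (by norm_num)).const_mul (u ^ (-(3 / 4) : ℝ))
      rwa [intervalIntegrable_iff_integrableOn_Ioc_of_le hu.le] at this
    calc _ ≤ ∫⁻ v in Ioc 0 u, ENNReal.ofReal (u ^ (-(3 / 4) : ℝ) * v ^ (-(3 / 4) : ℝ)) := by
          apply setLIntegral_mono (by fun_prop)
          intro v hv
          unfold phi
          have hv0 : 0 < v := hv.1
          rw [← ENNReal.ofReal_mul (by positivity)]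
          apply ENNReal.ofReal_le_ofReal
          have h1 : (u + v) ^ (-(1 / 2) : ℝ) ≤ u ^ (-(1 / 2) : ℝ) :=
            Real.rpow_le_rpow_of_nonpos hu (by linarith) (by norm_num)
          have h2 : u ^ (-(3 / 4) : ℝ) = u ^ (-(1 / 4) : ℝ) * u ^ (-(1 / 2) : ℝ) := by
            rw [← Real.rpow_add hu]; norm_num
          have h3 : v ^ (-(3 / 4) : ℝ) = v ^ (-(1 / 4) : ℝ) * v ^ (-(1 / 2) : ℝ) := by
            rw [← Real.rpow_add hv0]; norm_num
          rw [h2, h3]
          calc _ ≤ u ^ (-(1 / 4) : ℝ) * v ^ (-(1 / 4) : ℝ) * u ^ (-(1 / 2) : ℝ) *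
                v ^ (-(1 / 2) : ℝ) := by gcongr
            _ = _ := by ring
      _ = ENNReal.ofReal (∫ v in Ioc 0 u, u ^ (-(3 / 4) : ℝ) * v ^ (-(3 / 4) : ℝ)) := by
          rw [ofReal_integral_eq_lintegral_ofReal i1]
          rw [Filter.EventuallyLE, ae_restrict_iff' measurableSet_Ioc]
          apply Filter.Eventually.of_forall
          intro v hv
          have hv0 : 0 < v := hv.1
          show (0 : ℝ) ≤ _
          positivity
      _ ≤ _ := by
          apply ENNReal.ofReal_le_ofReal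
          rw [← intervalIntegral.integral_of_le hu.le, intervalIntegral.integral_const_mul,
            integral_rpow (by left; norm_num)]
          have h0 : (0 : ℝ) ^ (-(3 / 4) + 1 : ℝ) = 0 := Real.zero_rpow (by norm_num)
          rw [h0]
          have h4 : u ^ (-(3 / 4) : ℝ) * u ^ (-(3 / 4) + 1 : ℝ) = u ^ (-(1 / 2) : ℝ) := by
            rw [← Real.rpow_add hu]; norm_num
          have h5 : u ^ (-(3 / 4) : ℝ) * ((u ^ (-(3 / 4) + 1 : ℝ) - 0) / (-(3 / 4) + 1)) =
              4 * (u ^ (-(3 / 4) : ℝ) * u ^ (-(3 / 4) + 1 : ℝ)) := by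
            have : (-(3 / 4) + 1 : ℝ) = 1 / 4 := by norm_num
            rw [this]; ring
          rw [h5, h4]
  have p2 : ∫⁻ v in Ioi u, ENNReal.ofReal (u ^ (-(1 / 4) : ℝ) * v ^ (-(1 / 4) : ℝ) *
        (u + v) ^ (-(1 / 2) : ℝ)) * phi v ≤ ENNReal.ofReal (4 * u ^ (-(1 / 2) : ℝ)) := by
    have i1 : IntegrableOn (fun v : ℝ => u ^ (-(1 / 4) : ℝ) * v ^ (-(5 / 4) : ℝ)) (Ioi u) :=
      (integrableOn_Ioi_rpow_of_lt (a := -(5/4)) (by norm_num) hu).const_mul _
    calc _ ≤ ∫⁻ v in Ioi u, ENNReal.ofReal (u ^ (-(1 / 4) : ℝ) * v ^ (-(5 / 4) : ℝ)) := by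
          apply setLIntegral_mono (by fun_prop)
          intro v hv
          unfold phi
          have hv0 : 0 < v := hu.trans hv
          rw [← ENNReal.ofReal_mul (by positivity)]
          apply ENNReal.ofReal_le_ofReal
          have h1 : (u + v) ^ (-(1 / 2) : ℝ) ≤ v ^ (-(1 / 2) : ℝ) :=
            Real.rpow_le_rpow_of_nonpos hv0 (by linarith) (by norm_num)
          have h3 : v ^ (-(5 / 4) : ℝ) =
              v ^ (-(1 / 4) : ℝ) * v ^ (-(1 / 2) : ℝ) * v ^ (-(1 / 2) : ℝ) := by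
            rw [← Real.rpow_add hv0, ← Real.rpow_add hv0]; norm_num
          rw [h3]
          calc _ ≤ u ^ (-(1 / 4) : ℝ) * v ^ (-(1 / 4) : ℝ) * v ^ (-(1 / 2) : ℝ) *
                v ^ (-(1 / 2) : ℝ) := by gcongr
            _ = _ := by ring
      _ = ENNReal.ofReal (∫ v in Ioi u, u ^ (-(1 / 4) : ℝ) * v ^ (-(5 / 4) : ℝ)) := by
          rw [ofReal_integral_eq_lintegral_ofReal i1]
          rw [Filter.EventuallyLE, ae_restrict_iff' measurableSet_Ioi]
          apply Filter.Eventually.of_forall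
          intro v hv
          have hv0 : 0 < v := hu.trans hv
          show (0 : ℝ) ≤ _
          positivity
      _ ≤ _ := by
          apply ENNReal.ofReal_le_ofReal
          rw [integral_const_mul, integral_Ioi_rpow_of_lt (by norm_num) hu]
          have h4 : u ^ (-(1 / 4) : ℝ) * u ^ (-(5 / 4) + 1 : ℝ) = u ^ (-(1 / 2) : ℝ) := by
            rw [← Real.rpow_add hu]; norm_num
          have h5 : u ^ (-(1 / 4) : ℝ) * (-u ^ (-(5 / 4) + 1 : ℝ) / (-(5 / 4) + 1)) =
              4 * (u ^ (-(1 / 4) : ℝ) * u ^ (-(5 / 4) + 1 : ℝ)) := by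
            have : (-(5 / 4) + 1 : ℝ) = -(1 / 4) := by norm_num
            rw [this]; ring
          rw [h5, h4]
  calc _ ≤ ∫⁻ v in Ioc 0 u ∪ Ioi u, ENNReal.ofReal (u ^ (-(1 / 4) : ℝ) * v ^ (-(1 / 4) : ℝ) *
        (u + v) ^ (-(1 / 2) : ℝ)) * phi v := lintegral_mono_set hsub
    _ ≤ (∫⁻ v in Ioc 0 u, ENNReal.ofReal (u ^ (-(1 / 4) : ℝ) * v ^ (-(1 / 4) : ℝ) *
        (u + v) ^ (-(1 / 2) : ℝ)) * phi v) + ∫⁻ v in Ioi u, ENNReal.ofReal (u ^ (-(1 / 4) : ℝ) *
        v ^ (-(1 / 4) : ℝ) * (u + v) ^ (-(1 / 2) : ℝ)) * phi v := lintegral_union_le _ _ _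
    _ ≤ ENNReal.ofReal (4 * u ^ (-(1 / 2) : ℝ)) + ENNReal.ofReal (4 * u ^ (-(1 / 2) : ℝ)) :=
        add_le_add p1 p2
    _ = _ := by
        rw [← ENNReal.ofReal_add (by positivity) (by positivity)]
        congr 1; ring

/-- The Schur test potential. -/
noncomputable def psi (N : ℕ) (x : TT) : ℝ≥0∞ := ∫⁻ v in Ioc 0 2, kap N v x * phi v

lemma measurable_psi (N : ℕ) : Measurable (psi N) := by
  unfold psi
  have h1 : Measurable (fun p : TT × ℝ => phi p.2) := measurable_phi.comp measurable_snd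
  have h : Measurable (fun p : TT × ℝ => kap N p.2 p.1 * phi p.2) :=
    Measurable.mul (measurable_kap_swap N) h1
  exact h.lintegral_prod_right'

lemma psi_ne_top (N : ℕ) (x : TT) : psi N x ≠ ∞ := by
  unfold psi
  have h1 : ∫⁻ v in Ioc (0 : ℝ) 2, kap N v x * phi v ≤
      ∫⁻ v in Ioc (0 : ℝ) 2, (ENNReal.ofReal (2 / 7))⁻¹ ^ N * phi v := by
    apply setLIntegral_mono
    · exact measurable_const.mul measurable_phi
    · intro v hv
      gcongr
      exact kap_ne_top N hv.1.le x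
  refine ne_top_of_le_ne_top ?_ h1
  rw [lintegral_const_mul _ measurable_phi]
  apply ENNReal.mul_ne_top
  · apply ENNReal.pow_ne_top
    rw [ENNReal.inv_ne_top]
    simp
  · have i1 : IntegrableOn (fun v : ℝ => v ^ (-(1 / 2) : ℝ)) (Ioc 0 2) := by
      have := (intervalIntegral.intervalIntegrable_rpow' (a := 0) (b := 2) (r := -(1/2))
        (by norm_num))
      rwa [intervalIntegrable_iff_integrableOn_Ioc_of_le (by norm_num)] at this
    have h2 := i1.lintegral_lt_top
    exact h2.ne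

lemma psi_ne_zero (N : ℕ) (x : TT) : psi N x ≠ 0 := by
  unfold psi
  have h1 : ∫⁻ v in Ioc (0 : ℝ) 2, (2 : ℝ≥0∞)⁻¹ ^ N * ENNReal.ofReal (2 ^ (-(1 / 2) : ℝ)) ≤
      ∫⁻ v in Ioc (0 : ℝ) 2, kap N v x * phi v := by
    apply setLIntegral_mono
    · exact (measurable_kap' N x).mul measurable_phi
    · intro v hv
      apply mul_le_mul' (le_kap N hv.1.le x)
      unfold phi
      apply ENNReal.ofReal_le_ofReal
      exact Real.rpow_le_rpow_of_nonpos hv.1 hv.2 (by norm_num)
  intro h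
  rw [h] at h1
  simp only [lintegral_const, nonpos_iff_eq_zero, mul_eq_zero] at h1
  rcases h1 with h1 | h1
  · rcases h1 with h1 | h1
    · simp at h1
    · rw [ENNReal.ofReal_eq_zero] at h1
      have : (0 : ℝ) < 2 ^ (-(1 / 2) : ℝ) := by positivity
      linarith
  · simp at h1

/-- The Schur test bound for `psi`. -/
lemma kap_psi (N : ℕ) {u : ℝ} (hu : 0 < u) (hu2 : u ≤ 2) :
    ∫⁻ x, kap N u x * psi N x ∂mu ≤ ENNReal.ofReal (8 * C0) * phi u := by
  have h1 : ∀ x, kap N u x * psi N x = ∫⁻ v in Ioc 0 2, kap N u x * kap N v x * phi v := by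
    intro x
    unfold psi
    rw [← lintegral_const_mul]
    · apply lintegral_congr
      intro v
      ring
    · exact (measurable_kap' N x).mul measurable_phi
  simp_rw [h1]
  rw [lintegral_lintegral_swap]
  · calc _ ≤ ∫⁻ v in Ioc (0 : ℝ) 2, ENNReal.ofReal C0 *
          (ENNReal.ofReal (u ^ (-(1 / 4) : ℝ) * v ^ (-(1 / 4) : ℝ) *
          (u + v) ^ (-(1 / 2) : ℝ)) * phi v) := by
          apply setLIntegral_mono
          · exact Measurable.mul measurable_const (Measurable.mul (by fun_prop) measurable_phi)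
          · intro v hv
            have hm : Measurable (fun x => kap N u x * kap N v x) :=
              Measurable.mul (measurable_kap N u) (measurable_kap N v)
            rw [lintegral_mul_const _ hm]
            rw [← mul_assoc, ← ENNReal.ofReal_mul C0_pos.le]
            gcongr
            exact gram_bound N hu hu2 hv.1 hv.2
      _ = ENNReal.ofReal C0 * ∫⁻ v in Ioc (0 : ℝ) 2, (ENNReal.ofReal (u ^ (-(1 / 4) : ℝ) *
          v ^ (-(1 / 4) : ℝ) * (u + v) ^ (-(1 / 2) : ℝ)) * phi v) := by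
          rw [lintegral_const_mul]
          exact Measurable.mul (by fun_prop) measurable_phi
      _ ≤ ENNReal.ofReal C0 * ENNReal.ofReal (8 * u ^ (-(1 / 2) : ℝ)) := by
          gcongr
          exact schur_integral hu hu2
      _ = _ := by
          unfold phi
          rw [← ENNReal.ofReal_mul C0_pos.le, ← ENNReal.ofReal_mul (by linarith [C0_pos])]
          congr 1; ring
  · apply Measurable.aemeasurable
    have m1 : Measurable (fun p : TT × ℝ => kap N u p.1) :=
      (measurable_kap N u).comp measurable_fst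
    have m2 : Measurable (fun p : TT × ℝ => phi p.2) := measurable_phi.comp measurable_snd
    exact Measurable.mul (Measurable.mul m1 (measurable_kap_swap N)) m2

/-- The positive kernel operator is bounded from `L²` of the torus to `L²(0,2)`. -/
lemma schur_bound (N : ℕ) {h : TT → ℝ≥0∞} (hh : Measurable h) :
    ∫⁻ u in Ioc 0 2, (∫⁻ x, h x * kap N u x ∂mu) ^ 2 ≤
      ENNReal.ofReal (8 * C0) * ∫⁻ x, h x ^ 2 ∂mu := by
  have step : ∀ u ∈ Ioc (0 : ℝ) 2, (∫⁻ x, h x * kap N u x ∂mu) ^ 2 ≤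
      ENNReal.ofReal (8 * C0) * ∫⁻ x, h x ^ 2 * (psi N x)⁻¹ * (kap N u x * phi u) ∂mu := by
    intro u hu
    set f : TT → ℝ≥0∞ := fun x => h x * (kap N u x) ^ (1 / 2 : ℝ) * (psi N x) ^ (-(1 / 2) : ℝ)
      with hf
    set g : TT → ℝ≥0∞ := fun x => (kap N u x) ^ (1 / 2 : ℝ) * (psi N x) ^ (1 / 2 : ℝ) with hg
    have hfm : Measurable f :=
      (hh.mul ((measurable_kap N u).pow_const _)).mul ((measurable_psi N).pow_const _)
    have hgm : Measurable g := ((measurable_kap N u).pow_const _).mul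
      ((measurable_psi N).pow_const _)
    have hkt : ∀ x, kap N u x ≠ ∞ := by
      intro x
      refine ne_top_of_le_ne_top ?_ (kap_ne_top N hu.1.le x)
      apply ENNReal.pow_ne_top
      rw [ENNReal.inv_ne_top]
      simp
    have hk0 : ∀ x, kap N u x ≠ 0 := by
      intro x h0
      have := le_kap N hu.1.le x
      rw [h0] at this
      simp at this
    have hfg : ∀ x, h x * kap N u x = (f * g) x := by
      intro x
      simp only [Pi.mul_apply, hf, hg]
      have e1 : (kap N u x) ^ (1 / 2 : ℝ) * (kap N u x) ^ (1 / 2 : ℝ) = kap N u x := by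
        rw [← ENNReal.rpow_add _ _ (hk0 x) (hkt x)]; norm_num
      have e2 : (psi N x) ^ (-(1 / 2) : ℝ) * (psi N x) ^ (1 / 2 : ℝ) = 1 := by
        rw [← ENNReal.rpow_add _ _ (psi_ne_zero N x) (psi_ne_top N x)]; norm_num
      calc h x * kap N u x = h x * ((kap N u x) ^ (1 / 2 : ℝ) * (kap N u x) ^ (1 / 2 : ℝ)) *
            ((psi N x) ^ (-(1 / 2) : ℝ) * (psi N x) ^ (1 / 2 : ℝ)) := by rw [e1, e2, mul_one]
        _ = _ := by ring
    have hholder := ENNReal.lintegral_mul_le_Lp_mul_Lq mu (p := 2) (q := 2)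
      Real.HolderConjugate.two_two hfm.aemeasurable hgm.aemeasurable
    have hf2 : ∀ x, f x ^ (2 : ℝ) = h x ^ 2 * (psi N x)⁻¹ * kap N u x := by
      intro x
      simp only [hf]
      rw [ENNReal.mul_rpow_of_nonneg _ _ (by norm_num), ENNReal.mul_rpow_of_nonneg _ _
        (by norm_num), ← ENNReal.rpow_mul, ← ENNReal.rpow_mul]
      have e3 : (1 / 2 : ℝ) * 2 = 1 := by norm_num
      have e4 : (-(1 / 2) : ℝ) * 2 = -1 := by norm_num
      rw [e3, e4, ENNReal.rpow_one, ENNReal.rpow_neg_one, ENNReal.rpow_two]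
      ring
    have hg2 : ∀ x, g x ^ (2 : ℝ) = kap N u x * psi N x := by
      intro x
      simp only [hg]
      rw [ENNReal.mul_rpow_of_nonneg _ _ (by norm_num), ← ENNReal.rpow_mul, ← ENNReal.rpow_mul]
      have e3 : (1 / 2 : ℝ) * 2 = 1 := by norm_num
      rw [e3, ENNReal.rpow_one, ENNReal.rpow_one]
    simp_rw [hf2, hg2] at hholder
    simp_rw [hfg]
    calc (∫⁻ x, (f * g) x ∂mu) ^ 2
        ≤ ((∫⁻ x, h x ^ 2 * (psi N x)⁻¹ * kap N u x ∂mu) ^ (1 / 2 : ℝ) *
          (∫⁻ x, kap N u x * psi N x ∂mu) ^ (1 / 2 : ℝ)) ^ 2 := by gcongr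
      _ = (∫⁻ x, h x ^ 2 * (psi N x)⁻¹ * kap N u x ∂mu) * (∫⁻ x, kap N u x * psi N x ∂mu) := by
          rw [mul_pow, ← ENNReal.rpow_natCast, ← ENNReal.rpow_natCast, ← ENNReal.rpow_mul,
            ← ENNReal.rpow_mul]
          norm_num
      _ ≤ (∫⁻ x, h x ^ 2 * (psi N x)⁻¹ * kap N u x ∂mu) * (ENNReal.ofReal (8 * C0) * phi u) := by
          gcongr
          exact kap_psi N hu.1 hu.2
      _ = ENNReal.ofReal (8 * C0) * ((∫⁻ x, h x ^ 2 * (psi N x)⁻¹ * kap N u x ∂mu) * phi u) := by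
          ring
      _ = _ := by
          rw [← lintegral_mul_const]
          · congr 1
            apply lintegral_congr
            intro x
            ring
          · exact ((hh.pow_const 2).mul (measurable_psi N).inv).mul (measurable_kap N u)
  have hjoint : Measurable (fun p : ℝ × TT => h p.2 ^ 2 * (psi N p.2)⁻¹ *
      (kap N p.1 p.2 * phi p.1)) := by
    have m1 : Measurable (fun p : ℝ × TT => h p.2 ^ 2 * (psi N p.2)⁻¹) :=
      ((hh.pow_const 2).mul (measurable_psi N).inv).comp measurable_snd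
    have m2 : Measurable (fun p : ℝ × TT => phi p.1) := measurable_phi.comp measurable_fst
    exact Measurable.mul m1 (Measurable.mul (measurable_kap_uncurry N) m2)
  calc ∫⁻ u in Ioc 0 2, (∫⁻ x, h x * kap N u x ∂mu) ^ 2
      ≤ ∫⁻ u in Ioc 0 2, ENNReal.ofReal (8 * C0) *
        ∫⁻ x, h x ^ 2 * (psi N x)⁻¹ * (kap N u x * phi u) ∂mu := by
        apply setLIntegral_mono _ step
        apply measurable_const.mul
        exact hjoint.lintegral_prod_right'
    _ = ENNReal.ofReal (8 * C0) * ∫⁻ u in Ioc 0 2,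
        ∫⁻ x, h x ^ 2 * (psi N x)⁻¹ * (kap N u x * phi u) ∂mu := by
        rw [lintegral_const_mul]
        exact hjoint.lintegral_prod_right'
    _ = ENNReal.ofReal (8 * C0) * ∫⁻ x, (∫⁻ u in Ioc (0 : ℝ) 2,
        h x ^ 2 * (psi N x)⁻¹ * (kap N u x * phi u)) ∂mu := by
        rw [lintegral_lintegral_swap]
        exact hjoint.aemeasurable
    _ ≤ _ := by
        gcongr with x
        have hm : Measurable (fun u => kap N u x * phi u) :=
          Measurable.mul (measurable_kap' N x) measurable_phi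
        rw [lintegral_const_mul _ hm]
        show h x ^ 2 * (psi N x)⁻¹ * psi N x ≤ h x ^ 2
        rw [mul_assoc]
        calc h x ^ 2 * ((psi N x)⁻¹ * psi N x) ≤ h x ^ 2 * 1 := by
              gcongr
              exact ENNReal.inv_mul_le_one _
          _ = _ := mul_one _

end Pool.Agent.Work.MP_a3494b_an
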