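import Mathlib
import Pool.Agent.Work.MP_a3494b_an.Schur

set_option autoImplicit false

open MeasureTheory Metric Set
open scoped ComplexConjugate ENNReal

namespace Pool.Agent.Work.MP_a3494b_an

/-- Exponent of the `k`-th prime in `n`. -/
noncomputable def ex (n k : ℕ) : ℕ := n.factorization (Nat.nth Nat.Prime k)

lemma ex_eq_zero {n k : ℕ} (h : n ≤ k) : ex n k = 0 := by
  unfold ex
  apply Nat.factorization_eq_zero_of_lt
  have := Nat.add_two_le_nth_prime k
  omega

lemma ex_one (k : ℕ) : ex 1 k = 0 := by simp [ex]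

/-- Monomial of `n` in the first `N` variables. -/
noncomputable def mon (N n : ℕ) (w : ℕ → ℂ) : ℂ := ∏ k ∈ Finset.range N, w k ^ ex n k

lemma mon_eq {N n : ℕ} (h : n ≤ N) (w : ℕ → ℂ) : mon N n w = mon n n w := by
  unfold mon
  symm
  apply Finset.prod_subset
  · intro k hk
    rw [Finset.mem_range] at hk ⊢
    omega
  · intro k _ hk
    rw [Finset.mem_range, not_lt] at hk
    rw [ex_eq_zero hk, pow_zero]

lemma prod_nth_prime_pow {n : ℕ} (hn : n ≠ 0) {N : ℕ} (h : n ≤ N) :
    ∏ k ∈ Finset.range N, (Nat.nth Nat.Prime k) ^ ex n k = n := by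
  classical
  have h1 := Nat.prod_factorization_pow_eq_self hn
  conv_rhs => rw [← h1]
  rw [Nat.prod_factorization_eq_prod_primeFactors]
  have hinj : Set.InjOn (Nat.nth Nat.Prime) (Finset.range N : Set ℕ) :=
    (Nat.nth_injective Nat.infinite_setOfPred_prime).injOn
  have h2 : ∏ k ∈ Finset.range N, (Nat.nth Nat.Prime k) ^ ex n k =
      ∏ p ∈ (Finset.range N).image (Nat.nth Nat.Prime), p ^ n.factorization p := by
    rw [Finset.prod_image hinj]
    rfl
  rw [h2]
  symm
  apply Finset.prod_subset
  · intro p hp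
    have hp' := Nat.prime_of_mem_primeFactors hp
    rw [Finset.mem_image]
    refine ⟨Nat.count Nat.Prime p, ?_, Nat.nth_count hp'⟩
    rw [Finset.mem_range]
    have h3 := Nat.le_of_mem_primeFactors hp
    have h4 := Nat.add_two_le_nth_prime (Nat.count Nat.Prime p)
    rw [Nat.nth_count hp'] at h4
    omega
  · intro p _ hp
    rw [← Nat.support_factorization, Finsupp.notMem_support_iff] at hp
    rw [hp, pow_zero]

lemma mon_rk {n : ℕ} (hn : n ≠ 0) {N : ℕ} (h : n ≤ N) (u : ℝ) :
    mon N n (fun k => (rk k u : ℂ)) = (((n : ℝ) ^ (-(1 + u) / 2) : ℝ) : ℂ) := by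
  unfold mon
  have h1 : ∀ k, ((rk k u : ℂ)) ^ ex n k =
      ((((Nat.nth Nat.Prime k) ^ ex n k : ℕ) : ℝ) ^ (-(1 + u) / 2) : ℝ) := by
    intro k
    unfold rk pk
    push_cast
    rw [← Complex.ofReal_pow, ← Real.rpow_natCast, ← Real.rpow_mul (by positivity),
      ← Real.rpow_natCast ((Nat.nth Nat.Prime k : ℕ) : ℝ) (ex n k),
      ← Real.rpow_mul (by positivity)]
    congr 2
    ring
  simp_rw [h1]
  rw [← Complex.ofReal_prod, Real.finsetProd_rpow _ _ (fun i _ => by positivity),
    ← Nat.cast_prod, prod_nth_prime_pow hn h]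

lemma continuous_mon (N n : ℕ) : Continuous (mon N n) := by
  unfold mon
  fun_prop

lemma mon_update (N n : ℕ) (w : ℕ → ℂ) (j : ℕ) :
    ∃ P : Polynomial ℂ, ∀ t : ℂ, mon N n (Function.update w j t) = P.eval t := by
  classical
  refine ⟨∏ k ∈ Finset.range N, (if k = j then Polynomial.X else Polynomial.C (w k)) ^ ex n k,
    ?_⟩
  intro t
  unfold mon
  rw [Polynomial.eval_prod]
  apply Finset.prod_congr rfl
  intro k _
  rw [Polynomial.eval_pow]
  by_cases h : k = j
  · subst h; simp
  · simp [h]

/-- The character of the torus attached to `n`. -/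
noncomputable def chi (n : ℕ) (x : TT) : ℂ := mon n n (fun k => zc (x k))

lemma continuous_chi (n : ℕ) : Continuous (chi n) := by
  unfold chi
  apply (continuous_mon n n).comp
  apply continuous_pi
  intro k
  exact continuous_zc.comp (continuous_apply k)

lemma norm_chi (n : ℕ) (x : TT) : ‖chi n x‖ = 1 := by
  unfold chi mon
  rw [norm_prod]
  apply Finset.prod_eq_one
  intro k _
  rw [norm_pow, norm_zc, one_pow]

lemma chi_one (x : TT) : chi 1 x = 1 := by
  simp [chi, mon, ex_one]

lemma conj_chi (n : ℕ) (x : TT) : conj (chi n x) =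
    ∏ k ∈ Finset.range n,
      fourier (-((n.factorization (Nat.nth Nat.Prime k) : ℕ) : ℤ)) (x k) := by
  unfold chi mon
  rw [map_prod]
  apply Finset.prod_congr rfl
  intro k _
  rw [fourier_neg]
  congr 1
  rw [fourier_apply, AddCircle.toCircle_zsmul]
  simp [zc, ex, fourier_one]

lemma chi_sh {n N : ℕ} (h : n ≤ N) (j : ℕ) (t : UnitAddCircle) (x : TT) :
    chi n (sh j t x) = chi n x * zc t ^ ex n j := by
  have hzadd : ∀ s t : UnitAddCircle, zc (s + t) = zc s * zc t := by
    intro s t
    unfold zc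
    rw [fourier_one, fourier_one, fourier_one, AddCircle.toCircle_add]
    simp
  have key : ∀ M : ℕ, j < M → n ≤ M → mon M n (fun k => zc (sh j t x k)) =
      mon M n (fun k => zc (x k)) * zc t ^ ex n j := by
    intro M hM _
    unfold mon
    rw [← Finset.mul_prod_erase _ _ (Finset.mem_range.mpr hM),
      ← Finset.mul_prod_erase (Finset.range M) (fun k => zc (x k) ^ ex n k)
        (Finset.mem_range.mpr hM)]
    simp only [sh_self, hzadd, mul_pow]
    have : ∏ k ∈ (Finset.range M).erase j, zc (sh j t x k) ^ ex n k =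
        ∏ k ∈ (Finset.range M).erase j, zc (x k) ^ ex n k := by
      apply Finset.prod_congr rfl
      intro k hk
      rw [Finset.mem_erase] at hk
      rw [sh_ne hk.1]
    rw [this]
    ring
  have h2 := key (max (j + 1) n) (by omega) (le_max_right _ _)
  rw [mon_eq (le_max_right _ _), mon_eq (le_max_right _ _)] at h2
  exact h2

lemma integrable_TT {f : TT → ℂ} (hf : Continuous f) : Integrable f mu :=
  hf.integrable_of_hasCompactSupport (HasCompactSupport.of_compactSpace f)

lemma chi_orthogonal {m n : ℕ} (hm : m ≠ 0) (hn : n ≠ 0) (hmn : m ≠ n) :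
    ∫ x, chi m x * conj (chi n x) ∂mu = 0 := by
  obtain ⟨j, hj⟩ : ∃ j, ex m j ≠ ex n j := by
    by_contra hcon
    push Not at hcon
    apply hmn
    apply Nat.eq_of_factorization_eq hm hn
    intro p
    by_cases hp : p.Prime
    · have := hcon (Nat.count Nat.Prime p)
      unfold ex at this
      rwa [Nat.nth_count hp] at this
    · rw [Nat.factorization_eq_zero_of_not_prime _ hp,
        Nat.factorization_eq_zero_of_not_prime _ hp]
  set d : ℤ := (ex m j : ℤ) - (ex n j : ℤ) with hd
  have hd0 : d ≠ 0 := by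
    rw [hd, sub_ne_zero]
    exact_mod_cast hj
  set t : UnitAddCircle := ((1 / 2 / d : ℝ) : UnitAddCircle) with ht
  have hcont : Continuous (fun x => chi m x * conj (chi n x)) :=
    (continuous_chi m).mul (Complex.continuous_conj.comp (continuous_chi n))
  have h1 : ∫ x, chi m x * conj (chi n x) ∂mu =
      ∫ x, chi m (sh j t x) * conj (chi n (sh j t x)) ∂mu := by
    have h2 := (mp_shift j t)
    conv_lhs => rw [← h2.map_eq]
    rw [integral_map h2.measurable.aemeasurable hcont.aestronglyMeasurable]
  have h3 : zc t ^ ex m j * conj (zc t) ^ ex n j = -1 := by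
    have h4 : zc t ^ ex m j * conj (zc t) ^ ex n j = fourier d t := by
      rw [hd, sub_eq_add_neg, fourier_add, fourier_neg, fourier_apply, fourier_apply,
        AddCircle.toCircle_zsmul, AddCircle.toCircle_zsmul]
      simp [zc, fourier_one]
    rw [h4]
    have h5 := fourier_add_half_inv_index (T := (1 : ℝ)) hd0 one_pos (0 : UnitAddCircle)
    rw [zero_add] at h5
    rw [ht, h5]
    simp
  have h6 : ∀ x, chi m (sh j t x) * conj (chi n (sh j t x)) =
      -(chi m x * conj (chi n x)) := by
    intro x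
    rw [chi_sh le_rfl, chi_sh le_rfl, map_mul, map_pow]
    calc _ = chi m x * conj (chi n x) * (zc t ^ ex m j * conj (zc t) ^ ex n j) := by ring
      _ = _ := by rw [h3]; ring
  simp_rw [h6] at h1
  rw [integral_neg] at h1
  have h7 : (2 : ℂ) * ∫ x, chi m x * conj (chi n x) ∂mu = 0 := by
    linear_combination h1
  simpa using h7

lemma chi_self (n : ℕ) : ∫ x, chi n x * conj (chi n x) ∂mu = 1 := by
  have h : ∀ x, chi n x * conj (chi n x) = 1 := by
    intro x
    rw [Complex.mul_conj, Complex.normSq_eq_norm_sq, norm_chi]; simp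
  simp_rw [h]
  simp

/-- A Dirichlet polynomial on the torus. -/
noncomputable def FF (s : Finset ℕ) (a : ℕ → ℂ) (x : TT) : ℂ := ∑ n ∈ s, a n * chi n x

lemma continuous_FF (s : Finset ℕ) (a : ℕ → ℂ) : Continuous (FF s a) := by
  unfold FF
  apply continuous_finsetSum
  intro n _
  exact continuous_const.mul (continuous_chi n)

lemma coeff_le {s : Finset ℕ} (hs : ∀ n ∈ s, n ≠ 0) (a : ℕ → ℂ) {m : ℕ} (hm : m ∈ s) :
    ‖a m‖ ≤ ∫ x, ‖FF s a x‖ ∂mu := by
  have h1 : ∫ x, FF s a x * conj (chi m x) ∂mu = a m := by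
    unfold FF
    simp_rw [Finset.sum_mul]
    rw [integral_finsetSum]
    · rw [Finset.sum_eq_single m]
      · simp_rw [mul_assoc]
        rw [integral_const_mul, chi_self, mul_one]
      · intro n hn hnm
        simp_rw [mul_assoc]
        rw [integral_const_mul, chi_orthogonal (hs n hn) (hs m hm) hnm, mul_zero]
      · intro h; exact absurd hm h
    · intro n _
      apply integrable_TT
      exact (continuous_const.mul (continuous_chi n)).mul
        (Complex.continuous_conj.comp (continuous_chi m))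
  rw [← h1]
  refine (norm_integral_le_integral_norm _).trans (le_of_eq ?_)
  congr 1
  funext x
  rw [norm_mul, RCLike.norm_conj, norm_chi, mul_one]

end Pool.Agent.Work.MP_a3494b_an
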