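import Mathlib
import Pool.Agent.Work.MP_a3494b_an.Mono

set_option autoImplicit false

open MeasureTheory Metric Set
open scoped ComplexConjugate ENNReal

namespace Pool.Agent.Work.MP_a3494b_an

/-- The embedding inequality along the real segment. -/
lemma embed {s : Finset ℕ} (hs : ∀ n ∈ s, n ≠ 0) (a : ℕ → ℂ) :
    ∫⁻ u in Ioc (0 : ℝ) 2, ‖∑ n ∈ s, a n * (((n : ℝ) ^ (-(1 + u) / 2) : ℝ) : ℂ)‖ₑ ≤
      ENNReal.ofReal (8 * C0) * ∫⁻ x, ‖FF s a x‖ₑ ∂mu := by
  set N : ℕ := s.sup id with hN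
  have hle : ∀ n ∈ s, n ≤ N := fun n hn => Finset.le_sup (f := id) hn
  set G : (ℕ → ℂ) → ℂ := fun w => ∑ n ∈ s, a n * mon N n w with hG
  have hGc : Continuous G := by
    rw [hG]
    apply continuous_finsetSum
    intro n _
    exact continuous_const.mul (continuous_mon N n)
  have hpoly : ∀ (w : ℕ → ℂ) (j : ℕ), ∃ P : Polynomial ℂ, ∀ t : ℂ,
      G (Function.update w j t) = P.eval t := by
    intro w j
    choose P hP using fun n => mon_update N n w j
    refine ⟨∑ n ∈ s, Polynomial.C (a n) * P n, ?_⟩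
    intro t
    rw [Polynomial.eval_finsetSum]
    simp only [hG]
    apply Finset.sum_congr rfl
    intro n _
    rw [Polynomial.eval_mul, Polynomial.eval_C, hP]
  have hdep : ∀ w w' : ℕ → ℂ, (∀ k < N, w k = w' k) → G w = G w' := by
    intro w w' hww
    simp only [hG]
    apply Finset.sum_congr rfl
    intro n _
    congr 1
    unfold mon
    apply Finset.prod_congr rfl
    intro k hk
    rw [hww k (Finset.mem_range.mp hk)]
  have hGF : ∀ x : TT, G (fun k => zc (x k)) = FF s a x := by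
    intro x
    simp only [hG]
    unfold FF chi
    apply Finset.sum_congr rfl
    intro n hn
    rw [mon_eq (hle n hn)]
  have hGr : ∀ u : ℝ, G (fun k => (rk k u : ℂ)) =
      ∑ n ∈ s, a n * (((n : ℝ) ^ (-(1 + u) / 2) : ℝ) : ℂ) := by
    intro u
    simp only [hG]
    apply Finset.sum_congr rfl
    intro n hn
    rw [mon_rk (hs n hn) (hle n hn)]
  set h : TT → ℝ≥0∞ := fun x => ‖FF s a x‖ₑ ^ (1 / 2 : ℝ) with hh
  have hhm : Measurable h := by
    rw [hh]
    apply Measurable.pow_const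
    exact (continuous_FF s a).enorm.measurable
  have step : ∀ u ∈ Ioc (0 : ℝ) 2,
      ‖∑ n ∈ s, a n * (((n : ℝ) ^ (-(1 + u) / 2) : ℝ) : ℂ)‖ₑ ≤
      (∫⁻ x, h x * kap N u x ∂mu) ^ 2 := by
    intro u hu
    have hr : ∀ k, ‖(rk k u : ℂ)‖ < 1 := by
      intro k
      rw [Complex.norm_real, Real.norm_eq_abs, abs_of_pos (rk_pos k u)]
      linarith [rk_le k hu.1.le]
    have h1 := multi_var hGc hpoly hr N hdep
    rw [hGr] at h1
    simp_rw [hGF] at h1
    have h2 : (‖∑ n ∈ s, a n * (((n : ℝ) ^ (-(1 + u) / 2) : ℝ) : ℂ)‖ₑ ^ (1 / 2 : ℝ)) ^ 2 ≤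
      (∫⁻ x, h x * kap N u x ∂mu) ^ 2 := by
      gcongr
      exact h1
    have e1 : ((1 / 2 : ℝ) * ((2 : ℕ) : ℝ)) = 1 := by norm_num
    rw [← ENNReal.rpow_natCast, ← ENNReal.rpow_mul, e1, ENNReal.rpow_one] at h2
    exact h2
  have hmeas : Measurable (fun u : ℝ => (∫⁻ x, h x * kap N u x ∂mu) ^ 2) := by
    apply Measurable.pow_const
    have m1 : Measurable (fun p : ℝ × TT => h p.2) := hhm.comp measurable_snd
    have m2 : Measurable (fun p : ℝ × TT => h p.2 * kap N p.1 p.2) :=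
      Measurable.mul m1 (measurable_kap_uncurry N)
    exact m2.lintegral_prod_right'
  calc ∫⁻ u in Ioc (0 : ℝ) 2, ‖∑ n ∈ s, a n * (((n : ℝ) ^ (-(1 + u) / 2) : ℝ) : ℂ)‖ₑ
      ≤ ∫⁻ u in Ioc (0 : ℝ) 2, (∫⁻ x, h x * kap N u x ∂mu) ^ 2 := setLIntegral_mono hmeas step
    _ ≤ ENNReal.ofReal (8 * C0) * ∫⁻ x, h x ^ 2 ∂mu := schur_bound N hhm
    _ = _ := by
        congr 1
        apply lintegral_congr
        intro x
        rw [hh]
        show (‖FF s a x‖ₑ ^ (1 / 2 : ℝ)) ^ 2 = _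
        rw [← ENNReal.rpow_natCast, ← ENNReal.rpow_mul]
        norm_num

/-- The tail coefficient. -/
noncomputable def tl (n : ℕ) : ℝ := (n : ℝ) ^ (-(3 / 2) : ℝ) / Real.log n

/-- The target coefficient. -/
noncomputable def cf (n : ℕ) : ℝ := if n = 1 then 1 else (Real.sqrt n * Real.log n)⁻¹

lemma cf_eq {n : ℕ} (hn : n ≠ 0) :
    cf n = (1 / 2) * (∫ u in (0 : ℝ)..2, (n : ℝ) ^ (-(1 + u) / 2)) + tl n := by
  by_cases h1 : n = 1
  · subst h1
    simp [cf, tl]
  · have hn2 : 2 ≤ n := by omega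
    have hn2' : (2 : ℝ) ≤ n := by exact_mod_cast hn2
    have hnpos : (0 : ℝ) < n := by linarith
    have hlog : 0 < Real.log n := Real.log_pos (by linarith)
    unfold cf tl
    rw [if_neg h1]
    have h2 : ∀ u : ℝ, (n : ℝ) ^ (-(1 + u) / 2) =
        (n : ℝ) ^ (-(1 / 2) : ℝ) * Real.exp ((-(Real.log n) / 2) * u) := by
      intro u
      rw [Real.rpow_def_of_pos hnpos, Real.rpow_def_of_pos hnpos, ← Real.exp_add]
      congr 1; ring
    simp_rw [h2]
    rw [intervalIntegral.integral_const_mul]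
    have hc : (-(Real.log n) / 2) ≠ 0 := by
      apply ne_of_lt; linarith
    have h3 : ∫ u in (0 : ℝ)..2, Real.exp ((-(Real.log n) / 2) * u) =
        (2 / Real.log n) * (1 - (n : ℝ) ^ (-1 : ℝ)) := by
      rw [intervalIntegral.integral_comp_mul_left (fun x => Real.exp x) hc, integral_exp]
      have h4 : Real.exp (-(Real.log n) / 2 * 2) = (n : ℝ) ^ (-1 : ℝ) := by
        rw [Real.rpow_def_of_pos hnpos]; congr 1; ring
      rw [h4, mul_zero, Real.exp_zero, smul_eq_mul]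
      field_simp
      ring
    rw [h3]
    have h5 : (n : ℝ) ^ (-(3 / 2) : ℝ) = (n : ℝ) ^ (-(1 / 2) : ℝ) * (n : ℝ) ^ (-1 : ℝ) := by
      rw [← Real.rpow_add hnpos]; norm_num
    have h6 : (Real.sqrt n)⁻¹ = (n : ℝ) ^ (-(1 / 2) : ℝ) := by
      rw [Real.sqrt_eq_rpow, Real.rpow_neg hnpos.le]
    rw [h5, mul_inv, h6]
    field_simp
    ring

lemma tl_nonneg (n : ℕ) : 0 ≤ tl n := by
  unfold tl
  apply div_nonneg (by positivity)
  exact Real.log_natCast_nonneg n

lemma tl_summable : Summable tl := by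
  have h1 : Summable (fun n : ℕ => (1 / Real.log 2) * (n : ℝ) ^ (-(3 / 2) : ℝ)) := by
    apply Summable.mul_left
    rw [Real.summable_nat_rpow]; norm_num
  apply Summable.of_nonneg_of_le tl_nonneg _ h1
  intro n
  unfold tl
  have hl2 : 0 < Real.log 2 := Real.log_pos (by norm_num)
  rcases Nat.lt_or_ge n 2 with h | h
  · interval_cases n
    · simp
    · simp; positivity
  · have hn2' : (2 : ℝ) ≤ n := by exact_mod_cast h
    have h2 : Real.log 2 ≤ Real.log n := Real.log_le_log (by norm_num) hn2'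
    rw [div_eq_mul_one_div, mul_comm]
    gcongr

/-- The constant in the boundedness of the functional. -/
noncomputable def C1 : ℝ := (1 / 2) * (8 * C0) + ∑' n, tl n

lemma C1_nonneg : 0 ≤ C1 := by
  unfold C1
  have h1 := C0_pos
  have h2 : 0 ≤ ∑' n, tl n := tsum_nonneg tl_nonneg
  positivity

/-- Boundedness of the functional on `H¹`. -/
lemma star {s : Finset ℕ} (hs : ∀ n ∈ s, n ≠ 0) (a : ℕ → ℂ) :
    ‖∑ n ∈ s, a n * (cf n : ℂ)‖ ≤ C1 * ∫ x, ‖FF s a x‖ ∂mu := by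
  have hcont : ∀ n ∈ s, Continuous (fun u : ℝ => (((n : ℝ) ^ (-(1 + u) / 2) : ℝ) : ℂ)) := by
    intro n hn
    have hn0 : (n : ℝ) ≠ 0 := by exact_mod_cast hs n hn
    exact Complex.continuous_ofReal.comp
      ((Real.continuous_const_rpow hn0).comp (by fun_prop))
  have h1 : ∑ n ∈ s, a n * (cf n : ℂ) =
      (1 / 2 : ℂ) * (∫ u in (0 : ℝ)..2, ∑ n ∈ s, a n * (((n : ℝ) ^ (-(1 + u) / 2) : ℝ) : ℂ)) +
      ∑ n ∈ s, a n * (tl n : ℂ) := by
    rw [intervalIntegral.integral_finsetSum]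
    · rw [Finset.mul_sum, ← Finset.sum_add_distrib]
      apply Finset.sum_congr rfl
      intro n hn
      rw [intervalIntegral.integral_const_mul, intervalIntegral.integral_ofReal,
        cf_eq (hs n hn)]
      push_cast
      ring
    · intro n hn
      exact (continuous_const.mul (hcont n hn)).intervalIntegrable _ _
  have hI : ‖∫ u in (0 : ℝ)..2, ∑ n ∈ s, a n * (((n : ℝ) ^ (-(1 + u) / 2) : ℝ) : ℂ)‖ ≤
      (8 * C0) * ∫ x, ‖FF s a x‖ ∂mu := by
    have hnn : 0 ≤ (8 * C0) * ∫ x, ‖FF s a x‖ ∂mu := by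
      have := C0_pos
      positivity
    rw [← ENNReal.ofReal_le_ofReal_iff hnn, ofReal_norm,
      intervalIntegral.integral_of_le (by norm_num)]
    refine (enorm_integral_le_lintegral_enorm _).trans ?_
    refine (embed hs a).trans (le_of_eq ?_)
    rw [ENNReal.ofReal_mul (p := 8 * C0) (by linarith [C0_pos]),
      ofReal_integral_norm_eq_lintegral_enorm (integrable_TT (continuous_FF s a))]
  have hT : ‖∑ n ∈ s, a n * (tl n : ℂ)‖ ≤ (∑' n, tl n) * ∫ x, ‖FF s a x‖ ∂mu := by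
    calc ‖∑ n ∈ s, a n * (tl n : ℂ)‖ ≤ ∑ n ∈ s, ‖a n * (tl n : ℂ)‖ := norm_sum_le _ _
      _ ≤ ∑ n ∈ s, (∫ x, ‖FF s a x‖ ∂mu) * tl n := by
          apply Finset.sum_le_sum
          intro n hn
          rw [norm_mul, Complex.norm_real, Real.norm_eq_abs, abs_of_nonneg (tl_nonneg n)]
          exact mul_le_mul_of_nonneg_right (coeff_le hs a hn) (tl_nonneg n)
      _ = (∫ x, ‖FF s a x‖ ∂mu) * ∑ n ∈ s, tl n := by rw [Finset.mul_sum]
      _ ≤ (∫ x, ‖FF s a x‖ ∂mu) * ∑' n, tl n := by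
          apply mul_le_mul_of_nonneg_left
          · exact tl_summable.sum_le_tsum s (fun n _ => tl_nonneg n)
          · positivity
      _ = _ := mul_comm _ _
  rw [h1]
  calc _ ≤ ‖(1 / 2 : ℂ) * (∫ u in (0 : ℝ)..2, ∑ n ∈ s, a n *
        (((n : ℝ) ^ (-(1 + u) / 2) : ℝ) : ℂ))‖ + ‖∑ n ∈ s, a n * (tl n : ℂ)‖ := norm_add_le _ _
    _ ≤ (1 / 2) * ((8 * C0) * ∫ x, ‖FF s a x‖ ∂mu) + (∑' n, tl n) * ∫ x, ‖FF s a x‖ ∂mu := by
        apply add_le_add _ hT
        rw [norm_mul]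
        have : ‖(1 / 2 : ℂ)‖ = 1 / 2 := by norm_num
        rw [this]
        gcongr
    _ = _ := by unfold C1; ring

end Pool.Agent.Work.MP_a3494b_an
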