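import Mathlib
import Pool.Agent.Work.MP_a3494b_an.Star
import Pool.Agent.Work.MP_a3494b_an.Duality

set_option autoImplicit false

open MeasureTheory
open scoped ComplexConjugate ENNReal

namespace Pool.Agent.Work.MP_a3494b_an

/-- Existence of a bounded function with the prescribed Fourier coefficients. -/
lemma exists_bounded_g : ∃ g : TT → ℂ, MemLp g ⊤ mu ∧
    ∀ n : ℕ, n ≠ 0 → ∫ x, (starRingEnd ℂ) (g x) * chi n x ∂mu = (cf n : ℂ) := by
  have hchi2 : ∀ n, MemLp (chi n) 2 mu := fun n =>
    (memLp_top_of_bound (continuous_chi n).aestronglyMeasurable 1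
      (Filter.Eventually.of_forall (fun x => (norm_chi n x).le))).mono_exponent le_top
  set v : ℕ → Lp ℂ 1 mu := fun i => inc ((hchi2 (i + 1)).toLp (chi (i + 1))) with hv
  have key : ∀ a : ℕ →₀ ℂ,
      ‖Finsupp.linearCombination ℂ (fun i : ℕ => (cf (i + 1) : ℂ)) a‖ ≤
      C1 * ‖Finsupp.linearCombination ℂ v a‖ := by
    intro a
    set s : Finset ℕ := a.support.map ⟨fun i => i + 1, Nat.succ_injective⟩ with hs
    have hs0 : ∀ n ∈ s, n ≠ 0 := by
      intro n hn
      rw [hs, Finset.mem_map] at hn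
      obtain ⟨i, _, rfl⟩ := hn
      exact Nat.succ_ne_zero i
    have h1 := star hs0 (fun n => a (n - 1))
    have h2 : ∑ n ∈ s, a (n - 1) * (cf n : ℂ) =
        Finsupp.linearCombination ℂ (fun i : ℕ => (cf (i + 1) : ℂ)) a := by
      rw [hs, Finset.sum_map, Finsupp.linearCombination_apply, Finsupp.sum]
      apply Finset.sum_congr rfl
      intro i _
      simp
    have h3 : ‖Finsupp.linearCombination ℂ v a‖ = ∫ x, ‖FF s (fun n => a (n - 1)) x‖ ∂mu := by
      have e1 : (Finsupp.linearCombination ℂ v a : TT → ℂ) =ᵐ[mu]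
          FF s (fun n => a (n - 1)) := by
        rw [Finsupp.linearCombination_apply, Finsupp.sum]
        have e2 : (∑ i ∈ a.support, a i • v i : Lp ℂ 1 mu) =
            inc (∑ i ∈ a.support, a i • (hchi2 (i + 1)).toLp (chi (i + 1))) := by
          rw [map_sum]
          apply Finset.sum_congr rfl
          intro i _
          rw [map_smul]
        rw [e2]
        refine (inc_coe _).trans ?_
        refine (Lp.coeFn_finsetSum _ _).trans ?_
        have e3 : ∀ i : ℕ, (↑(a i • (hchi2 (i + 1)).toLp (chi (i + 1)) : Lp ℂ 2 mu) : TT → ℂ)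
            =ᵐ[mu] fun x => a i * chi (i + 1) x := by
          intro i
          filter_upwards [Lp.coeFn_smul (a i) ((hchi2 (i + 1)).toLp (chi (i + 1))),
            (hchi2 (i + 1)).coeFn_toLp] with x hx1 hx2
          rw [hx1, Pi.smul_apply, hx2, smul_eq_mul]
        have e4 : ∀ᵐ x ∂mu, ∀ i : ℕ,
            (↑(a i • (hchi2 (i + 1)).toLp (chi (i + 1)) : Lp ℂ 2 mu) : TT → ℂ) x =
            a i * chi (i + 1) x := by
          rw [ae_all_iff]
          exact e3
        filter_upwards [e4] with x hx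
        rw [Finset.sum_apply]
        unfold FF
        rw [hs, Finset.sum_map]
        apply Finset.sum_congr rfl
        intro i _
        rw [hx i]
        simp
      rw [Lp.norm_def, eLpNorm_congr_ae e1, eLpNorm_one_eq_lintegral_enorm,
        ← ofReal_integral_norm_eq_lintegral_enorm (integrable_TT (continuous_FF _ _)),
        ENNReal.toReal_ofReal (by positivity)]
    rw [← h2, h3]
    exact h1
  obtain ⟨L, hL1, hL2⟩ := exists_functional v (fun i : ℕ => (cf (i + 1) : ℂ)) C1 C1_nonneg key
  obtain ⟨g, hg1, hg2⟩ := exists_bounded_rep L C1 hL2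
  refine ⟨g, hg1, ?_⟩
  intro n hn
  obtain ⟨i, rfl⟩ := Nat.exists_eq_succ_of_ne_zero hn
  rw [← hg2 (chi (i + 1)) (hchi2 (i + 1))]
  exact hL1 i

end Pool.Agent.Work.MP_a3494b_an
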