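import Mathlib
import Pool.Agent.Work.MP_a3494b_an.Bounded

set_option autoImplicit false

open MeasureTheory
open scoped ComplexConjugate ENNReal

namespace Pool.Agent.Work.MP_a3494b_an

/-- The monomial `z^ν = ∏_j z_j^{ν_j}` of a finitely supported `ν` with all `ν_j ≥ 0`. -/
noncomputable def mono (ν : ℕ →₀ ℕ) (x : TT) : ℂ := ν.prod (fun j k => zc (x j) ^ k)

/-- The positive integer `n(ν) = ∏_j p_j^{ν_j}`, `p_j` the `j`-th prime (`p_0 = 2`). -/
noncomputable def bohr (ν : ℕ →₀ ℕ) : ℕ := ν.prod (fun j k => (Nat.nth Nat.Prime j) ^ k)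

lemma continuous_mono (ν : ℕ →₀ ℕ) : Continuous (mono ν) := by
  unfold mono Finsupp.prod
  apply continuous_finsetProd
  intro j _
  exact (continuous_zc.comp (continuous_apply j)).pow _

lemma norm_mono (ν : ℕ →₀ ℕ) (x : TT) : ‖mono ν x‖ = 1 := by
  unfold mono Finsupp.prod
  rw [norm_prod]
  apply Finset.prod_eq_one
  intro j _
  rw [norm_pow, norm_zc, one_pow]

lemma memLp_mono (ν : ℕ →₀ ℕ) : MemLp (mono ν) 2 mu :=
  (memLp_top_of_bound (continuous_mono ν).aestronglyMeasurable 1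
    (Filter.Eventually.of_forall (fun x => (norm_mono ν x).le))).mono_exponent le_top

/-- The monomial `z^ν` as an element of `L²(𝕋^∞)`. -/
noncomputable def monoL2 (ν : ℕ →₀ ℕ) : Lp ℂ 2 mu := (memLp_mono ν).toLp (mono ν)

/-- `H²(𝕋^∞)`: the closed span in `L²(𝕋^∞)` of the `z^ν` with all `ν_j ≥ 0`. -/
noncomputable def H2 : Submodule ℂ (Lp ℂ 2 mu) :=
  (Submodule.span ℂ (Set.range monoL2)).topologicalClosure

noncomputable instance : CompleteSpace H2 :=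
  inferInstanceAs (CompleteSpace (Submodule.span ℂ (Set.range monoL2)).topologicalClosure)

/-- The Riesz projection: the orthogonal projection of `L²(𝕋^∞)` onto `H²(𝕋^∞)`. -/
noncomputable def rieszProj : Lp ℂ 2 mu →L[ℂ] Lp ℂ 2 mu := H2.starProjection

/-! ### The Bohr correspondence -/

lemma bohr_factorization (ν : ℕ →₀ ℕ) (j : ℕ) :
    (bohr ν).factorization (Nat.nth Nat.Prime j) = ν j := by
  have hinj : Function.Injective (Nat.nth Nat.Prime) :=
    Nat.nth_injective Nat.infinite_setOfPred_prime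
  have h1 : bohr ν = (ν.mapDomain (Nat.nth Nat.Prime)).prod (fun p k => p ^ k) := by
    unfold bohr
    rw [Finsupp.prod_mapDomain_index_inj hinj]
  rw [h1, Nat.prod_pow_factorization_eq_self]
  · exact Finsupp.mapDomain_apply hinj ν j
  · intro p hp
    have hp' := Finsupp.mapDomain_support hp
    rw [Finset.mem_image] at hp'
    obtain ⟨j, _, rfl⟩ := hp'
    exact Nat.prime_nth_prime j

lemma bohr_ne_zero (ν : ℕ →₀ ℕ) : bohr ν ≠ 0 := by
  unfold bohr Finsupp.prod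
  rw [Finset.prod_ne_zero_iff]
  intro j _
  exact pow_ne_zero _ (Nat.prime_nth_prime j).ne_zero

lemma ex_bohr (ν : ℕ →₀ ℕ) (j : ℕ) : ex (bohr ν) j = ν j := bohr_factorization ν j

lemma bohr_injective : Function.Injective bohr := by
  intro ν ν' h
  ext j
  rw [← bohr_factorization ν j, h, bohr_factorization ν' j]

lemma chi_bohr (ν : ℕ →₀ ℕ) (x : TT) : chi (bohr ν) x = mono ν x := by
  unfold chi mon mono Finsupp.prod
  simp_rw [ex_bohr]
  symm
  apply Finset.prod_subset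
  · intro j hj
    rw [Finset.mem_range]
    by_contra hcon
    rw [not_lt] at hcon
    have h1 := ex_eq_zero hcon
    rw [ex_bohr] at h1
    rw [Finsupp.mem_support_iff] at hj
    exact hj h1
  · intro j _ hj
    rw [Finsupp.notMem_support_iff] at hj
    rw [hj, pow_zero]

/-! ### Orthonormality and the expansion in `H²` -/

lemma inner_mono (ν : ℕ →₀ ℕ) (f : Lp ℂ 2 mu) :
    inner ℂ (monoL2 ν) f = ∫ x, conj (mono ν x) * f x ∂mu := by
  rw [L2.inner_def]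
  apply integral_congr_ae
  filter_upwards [(memLp_mono ν).coeFn_toLp] with x hx
  unfold monoL2
  rw [hx, RCLike.inner_apply, mul_comm]

lemma orthonormal_monoL2 : Orthonormal ℂ monoL2 := by
  classical
  rw [orthonormal_iff_ite]
  intro ν ν'
  rw [inner_mono]
  have h1 : ∫ x, conj (mono ν x) * (monoL2 ν' : TT → ℂ) x ∂mu =
      ∫ x, chi (bohr ν') x * conj (chi (bohr ν) x) ∂mu := by
    apply integral_congr_ae
    filter_upwards [(memLp_mono ν').coeFn_toLp] with x hx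
    rw [chi_bohr, chi_bohr, mul_comm]
    congr 1
  rw [h1]
  split_ifs with h
  · subst h
    exact chi_self _
  · exact chi_orthogonal (bohr_ne_zero ν') (bohr_ne_zero ν)
      (fun h2 => h (bohr_injective h2).symm)

lemma monoL2_mem (ν : ℕ →₀ ℕ) : monoL2 ν ∈ H2 :=
  Submodule.le_topologicalClosure _ (Submodule.subset_span ⟨ν, rfl⟩)

/-- The monomials as elements of `H²`. -/
noncomputable def vH (ν : ℕ →₀ ℕ) : H2 := ⟨monoL2 ν, monoL2_mem ν⟩

lemma orthonormal_vH : Orthonormal ℂ vH := by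
  classical
  rw [orthonormal_iff_ite]
  intro ν ν'
  rw [Submodule.coe_inner]
  exact (orthonormal_iff_ite.mp orthonormal_monoL2) ν ν'

lemma span_vH : ⊤ ≤ (Submodule.span ℂ (Set.range vH)).topologicalClosure := by
  intro x _
  rw [← SetLike.mem_coe, Submodule.topologicalClosure_coe, closure_subtype]
  have h1 : ((fun y : H2 => (y : Lp ℂ 2 mu)) '' (Submodule.span ℂ (Set.range vH) : Set H2)) =
      (Submodule.span ℂ (Set.range monoL2) : Set (Lp ℂ 2 mu)) := by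
    have h2 : (Submodule.span ℂ (Set.range vH)).map H2.subtype =
        Submodule.span ℂ (Set.range monoL2) := by
      rw [Submodule.map_span, ← Set.range_comp]
      rfl
    rw [← h2]
    rfl
  rw [h1]
  have h3 := x.2
  unfold H2 at h3
  rw [← SetLike.mem_coe, Submodule.topologicalClosure_coe] at h3
  exact h3

/-- The expansion of the Riesz projection in the monomials. -/
lemma hasSum_riesz (f : Lp ℂ 2 mu) :
    HasSum (fun ν : ℕ →₀ ℕ => (inner ℂ (monoL2 ν) f : ℂ) • monoL2 ν) (rieszProj f) := by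
  set b : HilbertBasis (ℕ →₀ ℕ) ℂ H2 := HilbertBasis.mk orthonormal_vH span_vH with hb
  have h1 := b.hasSum_repr (H2.orthogonalProjectionOnto f)
  have h2 := h1.mapL H2.subtypeL
  have h3 : (fun ν : ℕ →₀ ℕ => (inner ℂ (monoL2 ν) f : ℂ) • monoL2 ν) =
      fun ν => H2.subtypeL ((b.repr (H2.orthogonalProjectionOnto f) ν) • b ν) := by
    funext ν
    rw [b.repr_apply_apply, hb, HilbertBasis.coe_mk, map_smul]
    have h4 : (inner ℂ (vH ν) (H2.orthogonalProjectionOnto f) : ℂ) = inner ℂ (monoL2 ν) f := by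
      exact Submodule.inner_orthogonalProjectionOnto_eq_of_mem_left (vH ν) f
    rw [h4]
    rfl
  rw [h3]
  exact h2

/-- There is a bounded `g` whose Riesz projection is the sum of the `cf (n(ν)) z^ν`. -/
lemma exists_preimage : ∃ g : TT → ℂ, ∃ hg : MemLp g ⊤ mu,
    HasSum (fun ν : ℕ →₀ ℕ => (cf (bohr ν) : ℂ) • monoL2 ν)
      (rieszProj ((hg.mono_exponent le_top).toLp g)) := by
  obtain ⟨g, hg, hg2⟩ := exists_bounded_g
  refine ⟨g, hg, ?_⟩
  have h1 := hasSum_riesz ((hg.mono_exponent le_top).toLp g)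
  have h2 : (fun ν : ℕ →₀ ℕ => (cf (bohr ν) : ℂ) • monoL2 ν) = fun ν : ℕ →₀ ℕ =>
      (inner ℂ (monoL2 ν) ((hg.mono_exponent le_top).toLp g : Lp ℂ 2 mu) : ℂ) • monoL2 ν := by
    funext ν
    congr 1
    rw [inner_mono, ← Complex.conj_ofReal, ← hg2 (bohr ν) (bohr_ne_zero ν), ← integral_conj]
    apply integral_congr_ae
    filter_upwards [(hg.mono_exponent le_top : MemLp g 2 mu).coeFn_toLp] with x hx
    rw [hx, chi_bohr, map_mul, Complex.conj_conj, mul_comm]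
  rw [h2]
  exact h1

/-! ### The embedding of `H¹` along the real segment -/

lemma sum_eq (b : (ℕ →₀ ℕ) →₀ ℂ) (φ : ℕ → ℂ) :
    ∑ n ∈ b.support.image bohr, b (Function.invFun bohr n) * φ n =
      b.sum (fun ν c => c * φ (bohr ν)) := by
  classical
  rw [Finset.sum_image (fun ν _ ν' _ h => bohr_injective h)]
  unfold Finsupp.sum
  apply Finset.sum_congr rfl
  intro ν _
  rw [Function.leftInverse_invFun bohr_injective ν]

lemma carleson (b : (ℕ →₀ ℕ) →₀ ℂ) :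
    ∫ σ in (1 / 2 : ℝ)..(3 / 2), ‖b.sum (fun ν c => c * (bohr ν : ℂ) ^ (-(σ : ℂ)))‖ ≤
      4 * C0 * ∫ x, ‖b.sum (fun ν c => c * mono ν x)‖ ∂mu := by
  classical
  set s : Finset ℕ := b.support.image bohr with hs
  set a : ℕ → ℂ := fun n => b (Function.invFun bohr n) with ha
  have hs0 : ∀ n ∈ s, n ≠ 0 := by
    intro n hn
    rw [hs, Finset.mem_image] at hn
    obtain ⟨ν, _, rfl⟩ := hn
    exact bohr_ne_zero ν
  have h1 := embed hs0 a
  have hFF : ∀ x : TT, FF s a x = b.sum (fun ν c => c * mono ν x) := by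
    intro x
    unfold FF
    rw [sum_eq b (fun n => chi n x)]
    simp_rw [chi_bohr]
  set F : ℝ → ℂ := fun u => ∑ n ∈ s, a n * (((n : ℝ) ^ (-(1 + u) / 2) : ℝ) : ℂ) with hF
  have hFc : Continuous F := by
    rw [hF]
    apply continuous_finsetSum
    intro n hn
    have hn0 : (n : ℝ) ≠ 0 := by exact_mod_cast hs0 n hn
    exact continuous_const.mul (Complex.continuous_ofReal.comp
      ((Real.continuous_const_rpow hn0).comp (by fun_prop)))
  have hFe : ∀ u : ℝ, F u =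
      b.sum (fun ν c => c * (bohr ν : ℂ) ^ (-((((1 / 2 : ℝ) * u + 1 / 2 : ℝ)) : ℂ))) := by
    intro u
    rw [hF]
    simp only []
    rw [ha, hs, sum_eq b (fun n => (((n : ℝ) ^ (-(1 + u) / 2) : ℝ) : ℂ))]
    unfold Finsupp.sum
    apply Finset.sum_congr rfl
    intro ν _
    show b ν * (((bohr ν : ℝ) ^ (-(1 + u) / 2) : ℝ) : ℂ) =
      b ν * (bohr ν : ℂ) ^ (-((((1 / 2 : ℝ) * u + 1 / 2 : ℝ)) : ℂ))
    rw [Complex.ofReal_cpow (Nat.cast_nonneg _)]
    push_cast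
    congr 2
    ring
  have h2 : ∫ u in (0 : ℝ)..2, ‖F u‖ =
      2 * ∫ σ in (1 / 2 : ℝ)..(3 / 2), ‖b.sum (fun ν c => c * (bohr ν : ℂ) ^ (-(σ : ℂ)))‖ := by
    simp_rw [hFe]
    have h3 := intervalIntegral.integral_comp_mul_add (a := (0 : ℝ)) (b := 2)
      (fun σ : ℝ => ‖b.sum (fun ν c => c * (bohr ν : ℂ) ^ (-(σ : ℂ)))‖)
      (show (1 / 2 : ℝ) ≠ 0 by norm_num) (1 / 2)
    rw [h3, smul_eq_mul]
    norm_num
  have h4 : ∫ u in (0 : ℝ)..2, ‖F u‖ ≤ 8 * C0 *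
      ∫ x, ‖b.sum (fun ν c => c * mono ν x)‖ ∂mu := by
    have hC := C0_pos
    simp_rw [← hFF]
    have hnn : 0 ≤ 8 * C0 * ∫ x, ‖FF s a x‖ ∂mu := by positivity
    rw [← ENNReal.ofReal_le_ofReal_iff hnn, intervalIntegral.integral_of_le (by norm_num),
      ofReal_integral_norm_eq_lintegral_enorm ((hFc.intervalIntegrable 0 2).1)]
    refine h1.trans (le_of_eq ?_)
    rw [ENNReal.ofReal_mul (p := 8 * C0) (by linarith),
      ofReal_integral_norm_eq_lintegral_enorm (integrable_TT (continuous_FF s a))]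
  linarith

/-! ### Translation to functions -/

/-- The polynomial with coefficients `b`. -/
noncomputable def liftF (b : (ℕ →₀ ℕ) →₀ ℂ) (x : TT) : ℂ := b.sum (fun ν c => c * mono ν x)

lemma coeFn_sum (s : Finset (ℕ →₀ ℕ)) (c : (ℕ →₀ ℕ) → ℂ) :
    ((∑ ν ∈ s, c ν • monoL2 ν : Lp ℂ 2 mu) : TT → ℂ) =ᵐ[mu]
      fun x => ∑ ν ∈ s, c ν * mono ν x := by
  refine (Lp.coeFn_finsetSum _ _).trans ?_
  have e3 : ∀ ν : ℕ →₀ ℕ, ((c ν • monoL2 ν : Lp ℂ 2 mu) : TT → ℂ)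
      =ᵐ[mu] fun x => c ν * mono ν x := by
    intro ν
    filter_upwards [Lp.coeFn_smul (c ν) (monoL2 ν), (memLp_mono ν).coeFn_toLp] with x hx1 hx2
    rw [hx1, Pi.smul_apply, smul_eq_mul]
    congr 1
  have e4 : ∀ᵐ x ∂mu, ∀ ν ∈ s, ((c ν • monoL2 ν : Lp ℂ 2 mu) : TT → ℂ) x =
      c ν * mono ν x := by
    rw [Filter.eventually_all_finset]
    intro ν _
    exact e3 ν
  filter_upwards [e4] with x hx
  rw [Finset.sum_apply]
  exact Finset.sum_congr rfl (fun ν hν => hx ν hν)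

lemma eLpNorm_sub_sum (f : TT → ℂ) (p : Lp ℂ 2 mu) (hf : f =ᵐ[mu] p) (s : Finset (ℕ →₀ ℕ))
    (c : (ℕ →₀ ℕ) → ℂ) :
    eLpNorm (fun x => f x - ∑ ν ∈ s, c ν * mono ν x) 2 mu =
      ENNReal.ofReal ‖p - ∑ ν ∈ s, c ν • monoL2 ν‖ := by
  have h1 : (fun x => f x - ∑ ν ∈ s, c ν * mono ν x) =ᵐ[mu]
      ((p - ∑ ν ∈ s, c ν • monoL2 ν : Lp ℂ 2 mu) : TT → ℂ) := by
    filter_upwards [hf, coeFn_sum s c, Lp.coeFn_sub p (∑ ν ∈ s, c ν • monoL2 ν)] with x h1 h2 h3
    rw [h3, Pi.sub_apply, h1, h2]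
  rw [eLpNorm_congr_ae h1, Lp.norm_def, ENNReal.ofReal_toReal (Lp.eLpNorm_ne_top _)]

/-- Elements of `H²` are `L²`-limits of polynomials. -/
lemma approx_of_mem_H2 (f : TT → ℂ) (p : Lp ℂ 2 mu) (hf : f =ᵐ[mu] p) (hp : p ∈ H2)
    {ε : ℝ≥0∞} (hε : 0 < ε) :
    ∃ b : (ℕ →₀ ℕ) →₀ ℂ, eLpNorm (fun x => f x - liftF b x) 2 mu < ε := by
  obtain ⟨δ, hδ, hδε⟩ : ∃ δ : ℝ, 0 < δ ∧ ENNReal.ofReal δ ≤ ε := by
    rcases eq_or_ne ε ⊤ with h | h
    · exact ⟨1, one_pos, by rw [h]; exact le_top⟩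
    · exact ⟨ε.toReal, ENNReal.toReal_pos hε.ne' h, by rw [ENNReal.ofReal_toReal h]⟩
  unfold H2 at hp
  rw [← SetLike.mem_coe, Submodule.topologicalClosure_coe, Metric.mem_closure_iff] at hp
  obtain ⟨q, hq, hpq⟩ := hp δ hδ
  rw [SetLike.mem_coe, Finsupp.mem_span_range_iff_exists_finsupp] at hq
  obtain ⟨b, rfl⟩ := hq
  refine ⟨b, ?_⟩
  unfold liftF Finsupp.sum
  rw [eLpNorm_sub_sum f p hf b.support b]
  rw [dist_eq_norm] at hpq
  refine lt_of_lt_of_le ?_ hδε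
  rw [ENNReal.ofReal_lt_ofReal_iff hδ]
  exact hpq

/-- `L²`-limits of polynomials are elements of `H²`. -/
lemma mem_H2_of_approx (f : TT → ℂ) (p : Lp ℂ 2 mu) (hf : f =ᵐ[mu] p)
    (h : ∀ ε : ℝ≥0∞, 0 < ε → ∃ b : (ℕ →₀ ℕ) →₀ ℂ,
      eLpNorm (fun x => f x - liftF b x) 2 mu < ε) : p ∈ H2 := by
  unfold H2
  rw [← SetLike.mem_coe, Submodule.topologicalClosure_coe, Metric.mem_closure_iff]
  intro δ hδ
  obtain ⟨b, hb⟩ := h (ENNReal.ofReal δ) (ENNReal.ofReal_pos.mpr hδ)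
  refine ⟨∑ ν ∈ b.support, b ν • monoL2 ν, ?_, ?_⟩
  · rw [SetLike.mem_coe, Finsupp.mem_span_range_iff_exists_finsupp]
    exact ⟨b, rfl⟩
  · unfold liftF Finsupp.sum at hb
    rw [eLpNorm_sub_sum f p hf b.support b, ENNReal.ofReal_lt_ofReal_iff hδ] at hb
    rw [dist_eq_norm]
    exact hb

/-- The function-level form of the preimage theorem. -/
lemma exists_preimage_fun : ∃ g : TT → ℂ, MemLp g ⊤ mu ∧ ∃ f : TT → ℂ, MemLp f 2 mu ∧
    Filter.Tendsto (fun s : Finset (ℕ →₀ ℕ) =>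
      eLpNorm (fun x => f x - ∑ ν ∈ s, (cf (bohr ν) : ℂ) * mono ν x) 2 mu) Filter.atTop
      (nhds 0) ∧
    (∀ ε : ℝ≥0∞, 0 < ε → ∃ b : (ℕ →₀ ℕ) →₀ ℂ,
      eLpNorm (fun x => f x - liftF b x) 2 mu < ε) ∧
    ∀ h : TT → ℂ, MemLp h 2 mu → (∀ ε : ℝ≥0∞, 0 < ε → ∃ b : (ℕ →₀ ℕ) →₀ ℂ,
      eLpNorm (fun x => h x - liftF b x) 2 mu < ε) →
      ∫ x, conj (h x) * (g x - f x) ∂mu = 0 := by
  obtain ⟨g, hg, hsum⟩ := exists_preimage
  set G : Lp ℂ 2 mu := (hg.mono_exponent le_top).toLp g with hG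
  have hmem : rieszProj G ∈ H2 := Submodule.starProjection_apply_mem H2 G
  refine ⟨g, hg, (rieszProj G : Lp ℂ 2 mu), Lp.memLp _, ?_, ?_, ?_⟩
  · have h1 : ∀ s : Finset (ℕ →₀ ℕ),
        eLpNorm (fun x => (rieszProj G : Lp ℂ 2 mu) x -
          ∑ ν ∈ s, (cf (bohr ν) : ℂ) * mono ν x) 2 mu =
        ENNReal.ofReal ‖rieszProj G - ∑ ν ∈ s, (cf (bohr ν) : ℂ) • monoL2 ν‖ := by
      intro s
      exact eLpNorm_sub_sum _ (rieszProj G) (Filter.EventuallyEq.refl _ _) s _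
    simp_rw [h1]
    have h2 : Filter.Tendsto (fun s : Finset (ℕ →₀ ℕ) =>
        ‖rieszProj G - ∑ ν ∈ s, (cf (bohr ν) : ℂ) • monoL2 ν‖) Filter.atTop (nhds 0) := by
      have h3 : Filter.Tendsto (fun s : Finset (ℕ →₀ ℕ) =>
          rieszProj G - ∑ ν ∈ s, (cf (bohr ν) : ℂ) • monoL2 ν) Filter.atTop
          (nhds (rieszProj G - rieszProj G)) := tendsto_const_nhds.sub hsum
      rw [sub_self] at h3
      have h4 := h3.norm
      rwa [norm_zero] at h4
    have h5 := ENNReal.tendsto_ofReal h2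
    rwa [ENNReal.ofReal_zero] at h5
  · intro ε hε
    exact approx_of_mem_H2 _ (rieszProj G) (Filter.EventuallyEq.refl _ _) hmem hε
  · intro h hh happ
    have h1 : hh.toLp h ∈ H2 := mem_H2_of_approx h (hh.toLp h) hh.coeFn_toLp.symm happ
    have h2 : inner ℂ (hh.toLp h) (G - rieszProj G) = 0 :=
      Submodule.inner_right_of_mem_orthogonal h1 (Submodule.sub_starProjection_mem_orthogonal G)
    rw [L2.inner_def] at h2
    rw [← h2]
    apply integral_congr_ae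
    filter_upwards [hh.coeFn_toLp, (hg.mono_exponent le_top : MemLp g 2 mu).coeFn_toLp,
      Lp.coeFn_sub G (rieszProj G)] with x hx1 hx2 hx3
    rw [hx3, Pi.sub_apply, hx1, hG, hx2, RCLike.inner_apply, mul_comm]

end Pool.Agent.Work.MP_a3494b_an
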